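import Pool.Agent.H458.AG.Gen
import Pool.Agent.H458.PD.Uni
import Pool.Agent.H458.BM.Bnd
import Pool.Agent.H458.BM.Two
import Pool.Graph.R_pool_sql_team_seeded_63374d34.N874.Jac.Def
import Pool.Agent.H458.RN.Rel

/-!
# Almost all hyperelliptic Jacobians over every number field after a bounded quadratic twist

Let `F` be ANY number field and `g ≥ 1`. We consider ALL polynomials
`f = x ^ (2 g + 1) + a_(2 g - 1) x ^ (2 g - 1) + ... + a_0` with coefficients in the ring of integers of `F`,
ordered by the height: `|σ a_i| ≤ B ^ (2 g + 1 - i)` for all embeddings `σ : F → ℂ`. (Every hyperelliptic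
curve of genus `g` over `F` with a rational Weierstrass point has an equation `y ^ 2 = f(x)` with such an `f`.)
`J_f` is the Jacobian of `y ^ 2 = f(x)`, an abelian variety of dimension `g` over `F`, and `J_f ^ d` its quadratic
twist by `d`.

For a natural number `R` and `f` let `C(f, R)` be the class of all the finite Galois extensions
`M / F` of 2-power degree in which all the primes dividing `R` split completely, such that for every prime `v`
of `F` either `M / F` is unramified at `v` or `f` is irreducible modulo `v`, and such that for every real embedding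
`σ` of `F` either a real embedding of `M` extends `σ` or `σ f` has exactly one real zero.

**Theorem.** Let `W ≥ 1`, let `𝒮` be a finite set of nonzero integers of `F` and `ε > 0`. There are a FINITE set
`𝒟` of squarefree natural numbers `D ≡ 1 mod 8 W`, with `1 ∈ 𝒟`, and a multiple `R` of `2 W` and of all `D ∈ 𝒟`, such
that for all large `B` ALL the `f` of height at most `B`, with the exception of a proportion `ε` at most, have for
every `d ∈ 𝒮` a `D ∈ 𝒟` such that `J = J_f ^ (d D)` has the following properties.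

(1) For ALL `M ∈ C(f ^ d, R)` (`M = F` is one of them) multiplication by two is bijective on `J(M)`, and the
2-primary part of the Tate-Shafarevich group of `J` over `M` is zero. (So `J(M)` is finite of odd order by
the theorem of Mordell and Weil, and the rank is 0.)

(2) For all `M ∈ C(f ^ d, R)` such that `Gal(M / F)` is not cyclic the root number of `J` over `M` is `1`, the sign
of the functional equation: `(-1) ^ (g r) ∏ w(J / M_v) = 1`, `r` the number of the infinite places of `M`. So the
order of vanishing at the central point which is expected from the functional equation is even, as the rank. We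
prove this for every function `w` on the primes of `M` with three properties of the local root numbers: the values
are signs, `w v = 1` if `v` does not divide `2` and the polynomial of the twist has no multiple zero modulo `v` (good
reduction), and `w` is invariant under `Gal(M / F)` (as `J` is defined over `F`).

(3) If `y ^ 2 = f ^ d (x)` is regular at the primes over two (a condition on `f ^ d` modulo the squares of the primes
over two, which holds for all the polynomials in a residue class modulo `4`), then for every field `W / F`, finite or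
infinite, which is a union of fields in `C(f ^ d, R)`, the ring `W[x, y] / (y ^ 2 - f ^ (d D))` is a principal ideal
domain, `J(W) = 0` (in particular the rank is zero, without the theorem of Mordell and Weil), and the curve
has no point over `W` except `∞`.

So for EVERY hyperelliptic Jacobian with a rational Weierstrass point, of ANY dimension, over EVERY number field, up
to a proportion `ε`, a quadratic twist by one of finitely many numbers which do not depend on `f` has rank zero
over all the fields of an infinite class at the same time, as predicted by the sign of the functional equation.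

What was known: a positive proportion (our `MP_ac3185_nt.EveryFieldEveryGenus`, `MP_1a91b9_nt.
TrivialMordellWeilGroups`, without twisting, and in the library for `M = F`); for `g = 1` part (1) for almost
all curves (`MP_7cad78_nt.FiniteSetsOfTwists`, by the same method). For one generic `f` the existence of SOME
quadratic twist with trivial 2-Selmer group over `F` is a theorem of Mazur-Rubin and Yu. New: the twist is bounded for
almost all `f`, over all `M` at the same time, with (2) and (3).

Proof. `f` is good at a prime number `q` (with a prime of degree one, `q ≡ 1 mod 8 W`) if `f` has exactly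
one zero modulo one prime of degree one over `q`, its cofactor is irreducible there, and `f` is irreducible modulo the
other primes over `q`. For a set `S` of primes at which `f` is good, `f` has a twist as required by a product of
primes in `S` if `f` is not in an exceptional set, and a theorem on the orbits of Bhargava and Gross (library and
helper459) and the number of points near the cusp bound the number of the exceptional `f` by `C 2 ^ (- # S)` of the
good ones, `C` independent of `S`. The new idea is to choose `S` depending on `f`: take `k` disjoint blocks of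
primes such that the expected number of good primes in each block is large. All but few `f` have at least `9 / 10`
of this number of good primes in every block; if `f` is exceptional for ALL the transversals `S` of its good
primes, then it is counted very often, and the number of these `f` is at most `C (5 / 9) ^ k` of all.
In this run the parts for genus `g` were proved by helpers 30, 47, 71, 80, 102, 118, 139, 152, 166, 231, 234, 236, 294,
295, 307, 322, 348, 372, 383, 650, 686 and 945. (2) is by counting the primes fixed by the Galois group, as in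
`MP_ac3185_nt`; (3) by the theorem on ideal classes over the regular scheme `y ^ 2 = f(x)` of `MP_1a91b9_nt.
TrivialMordellWeilGroups`.
-/

set_option autoImplicit false
set_option linter.all false

namespace Pool.Agent.Results.MP_1d384c_nt.AlmostAllJacobians

open Polynomial Filter IsDedekindDomain NumberField
open Pool.Agent.N874.Jac (J UniquelyTwoDivisible ShaTwoTrivialReal)
open scoped Classical

section defs

variable {F : Type} [Field F] [NumberField F]

/-- `f` is a monic polynomial of degree `2 g + 1` with integral coefficients, without term of degree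
`2 g`, and of height at most `B`: all conjugates of the coefficient of degree `j` are at most
`B ^ (2 g + 1 - j)` in absolute value. -/
structure IsPoly (g B : ℕ) (f : (𝓞 F)[X]) : Prop where
  monic : f.Monic
  degree : f.natDegree = 2 * g + 1
  trace : f.coeff (2 * g) = 0
  height : ∀ j ≤ 2 * g, ∀ σ : F →+* ℂ, ‖σ (f.coeff j : F)‖ ≤ (B : ℝ) ^ (2 * g + 1 - j)

variable (F) in
/-- The polynomials `f` of height at most `B`. -/
def Polys (g B : ℕ) : Set (𝓞 F)[X] := {f | IsPoly g B f}

/-- `f` is irreducible modulo `v`. -/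
def IrreducibleMod (f : (𝓞 F)[X]) (v : HeightOneSpectrum (𝓞 F)) : Prop :=
  Irreducible (f.map (Ideal.Quotient.mk v.asIdeal))

/-- `d ^ (2 g + 1) f(x / d)`: the coefficient of degree `j` is multiplied by `d ^ (2 g + 1 - j)`. The curve
`y ^ 2 = twist f d` is the quadratic twist by `d` of the curve `y ^ 2 = f(x)`. -/
noncomputable def twist (f : (𝓞 F)[X]) (d : 𝓞 F) : (𝓞 F)[X] := f.scaleRoots d

/-- `M / F` is unramified at `v`. -/
def Unramified (v : HeightOneSpectrum (𝓞 F)) (M : Type) [Field M] [NumberField M]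
    [Algebra F M] : Prop :=
  ∀ w : HeightOneSpectrum (𝓞 M), v.asIdeal.map (algebraMap (𝓞 F) (𝓞 M)) ≤ w.asIdeal →
    ¬ v.asIdeal.map (algebraMap (𝓞 F) (𝓞 M)) ≤ w.asIdeal ^ 2

/-- `v` splits completely in `M`: it is unramified and all integers of `M` are congruent to integers of
`F` modulo every prime over `v`. -/
def SplitsCompletely (v : HeightOneSpectrum (𝓞 F)) (M : Type) [Field M] [NumberField M]
    [Algebra F M] : Prop :=
  Unramified v M ∧
  ∀ w : HeightOneSpectrum (𝓞 M), v.asIdeal.map (algebraMap (𝓞 F) (𝓞 M)) ≤ w.asIdeal →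
    ∀ y : 𝓞 M, ∃ c : 𝓞 F, y - algebraMap (𝓞 F) (𝓞 M) c ∈ w.asIdeal

/-- The extension `M / F` belongs to the class `C(f, R)` of the number `R` and the polynomial `f`. -/
structure InClass (R : ℕ) (f : (𝓞 F)[X]) (M : Type) [Field M] [NumberField M] [Algebra F M] : Prop where
  galois : IsGalois F M
  degree : ∃ n : ℕ, Module.finrank F M = 2 ^ n
  split : ∀ v : HeightOneSpectrum (𝓞 F), (R : 𝓞 F) ∈ v.asIdeal → SplitsCompletely v M
  ramified : ∀ v : HeightOneSpectrum (𝓞 F), Unramified v M ∨ IrreducibleMod f v
  real : ∀ σ : F →+* ℝ, (∃ ρ : M →+* ℝ, ρ.comp (algebraMap F M) = σ) ∨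
    ∃! e : ℝ, (f.map (σ.comp (algebraMap (𝓞 F) F))).eval e = 0

/-- The polynomial `f` over the extension `M` of `F`. -/
noncomputable def overM (M : Type) [Field M] [Algebra F M] (f : (𝓞 F)[X]) : M[X] :=
  (f.map (algebraMap (𝓞 F) F)).map (algebraMap F M)

/-- Multiplication by two is bijective on `J(M)`, `J` the Jacobian of `y ^ 2 = P(x)`, and the 2-primary
part of the Tate-Shafarevich group of `J` over `M` is zero. -/
def NoTwoPart {M : Type} [Field M] [NumberField M] (P : M[X]) : Prop :=
  UniquelyTwoDivisible P ∧ ShaTwoTrivialReal P (𝓞 M)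

/-- The properties of the local root numbers `w(J / M_v)` at the primes `v` of `M` which we use: they are
signs, they are `1` if `v` does not divide `2` and `f` has no multiple zero modulo `v` (`J` has good
reduction), and they are the same for primes which are conjugate over `F`. -/
structure LocalRootNumbers (f : (𝓞 F)[X]) (M : Type) [Field M] [NumberField M] [Algebra F M]
    (w : HeightOneSpectrum (𝓞 M) → ℤ) : Prop where
  sign : ∀ v, w v = 1 ∨ w v = -1
  good : ∀ v : HeightOneSpectrum (𝓞 M), (2 : 𝓞 M) ∉ v.asIdeal →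
    ((f.map (algebraMap (𝓞 F) (𝓞 M))).map (Ideal.Quotient.mk v.asIdeal)).Separable → w v = 1
  conj : ∀ (σ : M ≃ₐ[F] M) (v v' : HeightOneSpectrum (𝓞 M)),
    (∀ x : M, v'.valuation M x = v.valuation M (σ x)) → w v' = w v

/-- The global root number of an abelian variety of dimension `g`: the product of the local root numbers
at the primes and of `(-1) ^ g` for every infinite place. -/
noncomputable def rootNumber (g : ℕ) (M : Type) [Field M] [NumberField M]
    (w : HeightOneSpectrum (𝓞 M) → ℤ) : ℤ :=
  ((-1) ^ g) ^ Nat.card (InfinitePlace M) * ∏ᶠ v, w v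

/-- `W / F` is a (finite or infinite) union of fields in the class: every finite subset of `W` is in the image of a
field `M` of the class. -/
def IsUnion (R : ℕ) (f : (𝓞 F)[X]) (W : Type) [Field W] [Algebra F W] : Prop :=
  ∀ s : Finset W, ∃ (M : Type) (_ : Field M) (_ : NumberField M) (_ : Algebra F M) (φ : M →ₐ[F] W),
    InClass R f M ∧ ∀ x ∈ s, x ∈ Set.range φ

/-- `y ^ 2 = f(x)` is regular at the points over all the primes `v` over two: `f` is congruent to
`E ^ 2 + x G ^ 2 + π r` modulo `v ^ 2`, where `π` is a uniformizer and `r` and `G` are coprime modulo `v`. -/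
def RegularAtTwo (f : (𝓞 F)[X]) : Prop :=
  ∀ v : HeightOneSpectrum (𝓞 F), (2 : 𝓞 F) ∈ v.asIdeal →
    ∃ (π : 𝓞 F) (E G r a b : (𝓞 F)[X]), π ∈ v.asIdeal ∧ π ∉ v.asIdeal ^ 2 ∧
      (∀ j, (f - (E ^ 2 + X * G ^ 2 + C π * r)).coeff j ∈ v.asIdeal ^ 2) ∧
      ∀ j, (a * r + b * G - 1).coeff j ∈ v.asIdeal

/-- The Jacobian of `y ^ 2 = P(x)` has no point except zero over `M`: the coordinate ring
`M[x, y] / (y ^ 2 - P(x))` is a principal ideal domain and `J(M)`, its Picard group, is zero. The
curve has no point except the point at infinity. -/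
structure NoPoints {M : Type} [Field M] (P : M[X]) : Prop where
  domain : IsDomain (AdjoinRoot (X ^ 2 - C P : M[X][X]))
  principal : IsPrincipalIdealRing (AdjoinRoot (X ^ 2 - C P : M[X][X]))
  jacobian : Subsingleton (J P M)
  curve : ∀ x y : M, y ^ 2 ≠ P.eval x

/-- The properties of the twist of `f` by `c` in the theorem, over all the fields `M` in the class of `f₀`. -/
structure Good (g R : ℕ) (f₀ f : (𝓞 F)[X]) (c : 𝓞 F) : Prop where
  selmer : ∀ (M : Type) [Field M] [NumberField M] [Algebra F M], InClass R f₀ M →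
    NoTwoPart (overM M (twist f c))
  trivial : RegularAtTwo f₀ → ∀ (W : Type) [Field W] [Algebra F W], IsUnion R f₀ W →
    NoPoints (overM W (twist f c))
  root : ∀ (M : Type) [Field M] [NumberField M] [Algebra F M], InClass R f₀ M →
    ¬ IsCyclic (M ≃ₐ[F] M) → ∀ w : HeightOneSpectrum (𝓞 M) → ℤ, LocalRootNumbers (twist f c) M w →
    {v | w v ≠ 1}.Finite ∧ rootNumber g M w = 1

end defs

section pf

variable {F : Type} [Field F] [NumberField F]

open Pool.Agent.H458.RN
open Pool.Agent.H459.UF (Unr Deg1 below exists_above)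

theorem sep_up {M : Type} [Field M] [NumberField M] [Algebra F M] {f : (𝓞 F)[X]}
    {u : HeightOneSpectrum (𝓞 F)} {v : HeightOneSpectrum (𝓞 M)}
    (hl : u.asIdeal.map (algebraMap (𝓞 F) (𝓞 M)) ≤ v.asIdeal) (h : IrreducibleMod f u) :
    ((f.map (algebraMap (𝓞 F) (𝓞 M))).map (Ideal.Quotient.mk v.asIdeal)).Separable := by
  haveI : u.asIdeal.IsMaximal := u.isMaximal
  letI : Field (𝓞 F ⧸ u.asIdeal) := Ideal.Quotient.field u.asIdeal
  haveI : Finite (𝓞 F ⧸ u.asIdeal) := inferInstance
  have h1 : (f.map (Ideal.Quotient.mk u.asIdeal)).Separable :=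
    PerfectField.separable_of_irreducible h
  let φ : (𝓞 F ⧸ u.asIdeal) →+* (𝓞 M ⧸ v.asIdeal) :=
    Ideal.Quotient.lift u.asIdeal ((Ideal.Quotient.mk v.asIdeal).comp (algebraMap (𝓞 F) (𝓞 M)))
      (fun a ha => by
        rw [RingHom.comp_apply, Ideal.Quotient.eq_zero_iff_mem]
        exact hl (Ideal.mem_map_of_mem _ ha))
  have h2 := h1.map (f := φ)
  rw [Polynomial.map_map] at h2
  rw [Polynomial.map_map]
  exact h2

theorem root_one {g R : ℕ} {f₀ f : (𝓞 F)[X]} (h2R : 2 ∣ R)
    (hred : ∀ u : HeightOneSpectrum (𝓞 F), (R : 𝓞 F) ∉ u.asIdeal → IrreducibleMod f₀ u →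
      IrreducibleMod f u)
    (hm : f.Monic) (hd : f.natDegree = 2 * g + 1)
    (hirr : Irreducible (f.map (algebraMap (𝓞 F) F)))
    (M : Type) [Field M] [NumberField M] [Algebra F M] (hM : InClass R f₀ M)
    (hnc : ¬ IsCyclic (M ≃ₐ[F] M)) (w : HeightOneSpectrum (𝓞 M) → ℤ)
    (hw : LocalRootNumbers f M w) : {v | w v ≠ 1}.Finite ∧ rootNumber g M w = 1 := by
  haveI := hM.galois
  obtain ⟨n, hn⟩ := hM.degree
  haveI : FiniteDimensional F M := Module.finite_of_finrank_pos (by rw [hn]; positivity)
  have hcardG : Nat.card (M ≃ₐ[F] M) = 2 ^ n := by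
    rw [IsGalois.card_aut_eq_finrank, hn]
  -- the degree is at least four
  have hn2 : 2 ≤ n := by
    by_contra hlt
    apply hnc
    haveI : Fact (Nat.Prime 2) := ⟨Nat.prime_two⟩
    obtain rfl | rfl : n = 0 ∨ n = 1 := by omega
    · rw [pow_zero, Nat.card_eq_one_iff_unique] at hcardG
      haveI := hcardG.1
      exact isCyclic_of_subsingleton
    · rw [pow_one] at hcardG
      exact isCyclic_of_prime_card hcardG
  have hfin : {v | w v ≠ 1}.Finite := by
    refine (bad_finite (P := f.map (algebraMap (𝓞 F) (𝓞 M))) ?_ ?_).subset ?_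
    · rw [hm.natDegree_map, hd]
      omega
    · rw [Polynomial.map_map]
      have h1 := hirr.separable.map (f := algebraMap F M)
      rw [Polynomial.map_map] at h1
      have e : (algebraMap (𝓞 M) M).comp (algebraMap (𝓞 F) (𝓞 M)) =
          (algebraMap F M).comp (algebraMap (𝓞 F) F) := rfl
      rw [e]
      exact h1
    · intro v hv
      rw [Set.mem_setOf_eq]
      by_contra h
      rw [not_or, not_not] at h
      exact hv (hw.good v h.1 h.2)
  refine ⟨hfin, ?_⟩
  have hprod := prod_eq F hn w hw.sign hfin hw.conj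
  have hempty : {v | w v = -1 ∧ Fixed F v} = ∅ := by
    rw [Set.eq_empty_iff_forall_notMem]
    rintro v ⟨hv1, hv2⟩
    obtain ⟨u, hu⟩ := Pool.Agent.N874.TF.exists_bel F v
    haveI hl : v.asIdeal.LiesOver u.asIdeal := ⟨by
      ext y
      rw [Ideal.mem_comap]
      exact hu y⟩
    have hle : u.asIdeal.map (algebraMap (𝓞 F) (𝓞 M)) ≤ v.asIdeal := by
      rw [Ideal.map_le_iff_le_comap]
      intro y hy
      exact (hu y).1 hy
    -- an unramified prime
    have hunr : ∀ h : Unramified u M, False := by
      intro h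
      apply hnc
      refine cyclic_of_fixed (u := u) (v := v) ?_ hv2
      exact Ideal.ramificationIdx'_spec (by rw [pow_one]; exact hle) (h v hle)
    by_cases hR : (R : 𝓞 F) ∈ u.asIdeal
    · exact hunr (hM.split u hR).1
    rcases hM.ramified u with h | h
    · exact hunr h
    · have h3 : (2 : 𝓞 M) ∉ v.asIdeal := by
        intro h4
        apply hR
        obtain ⟨m, hm'⟩ := h2R
        rw [hm', Nat.cast_mul]
        refine Ideal.mul_mem_right _ _ ?_
        rw [hu, Nat.cast_ofNat, map_ofNat]
        exact h4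
      rw [hw.good v h3 (sep_up hle (hred u hR h))] at hv1
      norm_num at hv1
  rw [rootNumber, hprod, hempty, Set.ncard_empty, pow_zero, mul_one, ← pow_mul]
  exact ((even_infinite (F := F) hn hn2).mul_left g).neg_one_pow

theorem cls_of {M : Type} [Field M] [NumberField M] [Algebra F M] {R : ℕ} {f : (𝓞 F)[X]}
    (h : InClass R f M) : Pool.Agent.H458.AG.ClsM F M R f where
  spl := fun v hv => ⟨Pool.Agent.H458.AG.Gen.unr_of (h.split v hv).1, (h.split v hv).2⟩
  unr := fun v => (h.ramified v).imp Pool.Agent.H458.AG.Gen.unr_of id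
  real := fun σ => (h.real σ).imp id fun h' => by
    unfold Pool.Agent.N783.PF.fF
    rw [Polynomial.map_map]
    exact h'

/-- `M = F` belongs to all the classes. -/
theorem self_mem (R : ℕ) (f : (𝓞 F)[X]) : InClass R f F := by
  have h2 := Pool.Agent.H458.AG.Gen.cls_base (F := F) R f
  exact ⟨inferInstance, ⟨0, by rw [Module.finrank_self, pow_zero]⟩,
    fun v hv => ⟨Pool.Agent.H458.AG.Gen.of_unr (h2.spl v hv).1, (h2.spl v hv).2⟩,
    fun v => Or.inl (Pool.Agent.H458.AG.Gen.of_unr (Pool.Agent.H458.AU.unr_self v)),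
    fun σ => Or.inl ⟨σ, by
    ext x
    rfl⟩⟩

/-- The embedding in the completion at a prime which splits completely. -/
theorem embed {M : Type} [Field M] [NumberField M] [Algebra F M] {v : HeightOneSpectrum (𝓞 F)}
    (h : SplitsCompletely v M) : Nonempty (M →ₐ[F] v.adicCompletion F) := by
  obtain ⟨w, hw⟩ := exists_above (K := F) M v
  subst hw
  obtain ⟨j, hj⟩ := Pool.Agent.H459.UF.cpl_surj (Pool.Agent.H459.UF.dns_of_deg1
    (K := F) (P := w) (Pool.Agent.H458.AG.Gen.unr_of h.1) h.2)
  refine ⟨{ (j.comp (algebraMap M (w.adicCompletion M))) with commutes' := fun r => hj r }⟩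

/-- Regularity is the same for the twist by `D ≡ 1 mod 8`. -/
theorem reg_twist {f : (𝓞 F)[X]} {D W : ℕ} (hD : D ≡ 1 [MOD 8 * W]) (hf : RegularAtTwo f)
    (v : HeightOneSpectrum (𝓞 F)) (hv : (2 : 𝓞 F) ∈ v.asIdeal) :
    Pool.Agent.H458.PD.RegAt v (f.scaleRoots (D : 𝓞 F)) := by
  have h0 : Pool.Agent.H458.PD.RegAt v f := hf v hv
  refine h0.congr fun j => ?_
  rw [coeff_scaleRoots]
  have h8 : D ≡ 1 [MOD 8] := hD.of_dvd (dvd_mul_right 8 W)
  have h9 : D ^ (f.natDegree - j) ≡ 1 [MOD 8] := by
    have := h8.pow (f.natDegree - j)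
    rwa [one_pow] at this
  obtain ⟨k, hk⟩ : (8 : ℤ) ∣ ((D ^ (f.natDegree - j) : ℕ) : ℤ) - 1 := by
    have := (Nat.modEq_iff_dvd.1 h9.symm)
    exact_mod_cast this
  have e1 : (D : 𝓞 F) ^ (f.natDegree - j) = 8 * (k : 𝓞 F) + 1 := by
    have h10 : (((D ^ (f.natDegree - j) : ℕ) : ℤ) : 𝓞 F) = ((8 * k + 1 : ℤ) : 𝓞 F) := by
      rw [← hk]
      ring_nf
    push_cast at h10
    exact h10
  have e2 : f.coeff j * (D : 𝓞 F) ^ (f.natDegree - j) - f.coeff j = (2 * 2) * (2 * (k : 𝓞 F) * f.coeff j) := by
    rw [e1]
    ring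
  rw [e2, pow_two]
  exact Ideal.mul_mem_right _ _ (Ideal.mul_mem_mul hv hv)

theorem pid_of {g R : ℕ} (h2R : 2 ∣ R) {f₀ f : (𝓞 F)[X]}
    (hm : f.Monic) (hd : f.natDegree = 2 * g + 1) (h2 : Irreducible (Pool.Agent.N783.PF.fF f))
    (hR : ∀ v : HeightOneSpectrum (𝓞 F), (2 : 𝓞 F) ∈ v.asIdeal → Pool.Agent.H458.PD.RegAt v f)
    (M : Type) [Field M] [NumberField M] [Algebra F M] (hM : InClass R f₀ M)
    (hdiv : Pool.Agent.N874.Jac.UniquelyTwoDivisible (overM M f)) :
    IsPrincipalIdealRing (Pool.Agent.Y160.SE.CR 2 (overM M f)) := by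
  obtain ⟨v, hv⟩ := Pool.Agent.H458.PD.exists_two F
  have hR0 : (R : 𝓞 F) ∈ v.asIdeal := by
    obtain ⟨m, hm⟩ := h2R
    rw [hm, Nat.cast_mul]
    exact Ideal.mul_mem_right _ _ (by exact_mod_cast hv)
  obtain ⟨σ⟩ := embed (hM.split v hR0)
  have h3 := (Pool.Agent.H458.PD.glo_ring σ hv (hR v hv) hm hd h2.separable (P := overM M f) rfl
    hdiv).2.1
  have hid : (overM M f).map (algebraMap M M) = overM M f := Polynomial.map_id
  have h4 : IsPrincipalIdealRing (Pool.Agent.Y160.SE.CR 2 ((overM M f).map (algebraMap M M))) := h3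
  rwa [hid] at h4

theorem noPoints_of {g : ℕ} (hg : 1 ≤ g) {R : ℕ} {f₀ f : (𝓞 F)[X]}
    (hm : f.Monic) (hd : f.natDegree = 2 * g + 1)
    (hpid : ∀ (M : Type) [Field M] [NumberField M] [Algebra F M], InClass R f₀ M →
      IsPrincipalIdealRing (Pool.Agent.Y160.SE.CR 2 (overM M f)))
    (W : Type) [Field W] [Algebra F W] (hW : IsUnion R f₀ W) : NoPoints (overM W f) := by
  have hd' : (overM W f).natDegree = 2 * g + 1 := by
    unfold overM
    rw [(hm.map _).natDegree_map, hm.natDegree_map, hd]
  have hodd : Odd (overM W f).natDegree := by rw [hd']; exact odd_two_mul_add_one g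
  have key : IsPrincipalIdealRing (Pool.Agent.Y160.SE.CR 2 (overM W f)) := by
    apply Pool.Agent.H458.PD.union_pid
    intro s
    obtain ⟨M, i1, i2, i3, φ, hM, hs⟩ := hW s
    refine ⟨M, i1, (φ : M →+* W), overM M f, ?_, hs, hpid M hM⟩
    unfold overM
    rw [Polynomial.map_map]
    congr 1
    exact φ.comp_algebraMap
  have hdom : IsDomain (Pool.Agent.Y160.SE.CR 2 (overM W f)) := Pool.Agent.H458.PD.cr_domain hodd
  have hid : (overM W f).map (algebraMap W W) = overM W f := Polynomial.map_id
  refine ⟨hdom, key, ?_, ?_⟩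
  · have h5 : Subsingleton (CommRing.Pic
        (Pool.Agent.Y160.SE.CR 2 ((overM W f).map (algebraMap W W)))) := by
      rw [hid]
      haveI := key
      haveI := hdom
      have h5 : Subsingleton (ClassGroup (Pool.Agent.Y160.SE.CR 2 (overM W f))) :=
        Fintype.card_le_one_iff_subsingleton.1
          (card_classGroup_eq_one (R := Pool.Agent.Y160.SE.CR 2 (overM W f))).le
      exact (ClassGroup.equivPic (Pool.Agent.Y160.SE.CR 2 (overM W f))).symm.toEquiv.subsingleton
    exact h5
  · intro x y
    exact Pool.Agent.H458.PD.no_points hodd (by rw [hd']; omega) key x y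

theorem good_of {g R W : ℕ} (hg : 1 ≤ g) {𝒟 : Finset ℕ} {𝒮 : Finset (𝓞 F)} (h2R : 2 ∣ R)
    (h𝒮 : ∀ d ∈ 𝒮, d ≠ 0) (hD0 : ∀ D ∈ 𝒟, Squarefree D ∧ D ≡ 1 [MOD 8 * W] ∧ D ∣ R) {f : (𝓞 F)[X]}
    (hf : f ∈ Pool.Agent.H458.AG.Gen.VV F g R 𝒟 𝒮) {d : 𝓞 F} (hd : d ∈ 𝒮) :
    ∃ D ∈ 𝒟, Good g R (twist f d) f (d * (D : 𝓞 F)) := by
  obtain ⟨D, hD, hm, hdeg, hirr, h⟩ := Pool.Agent.H458.AG.Gen.triv_of h𝒮 (fun D hD => (hD0 D hD).1) hf hd
  have hsel : ∀ (M : Type) [Field M] [NumberField M] [Algebra F M], InClass R (twist f d) M →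
      NoTwoPart (overM M (twist f (d * (D : 𝓞 F)))) := by
    intro M _ _ _ hM
    haveI := hM.galois
    obtain ⟨n, hn⟩ := hM.degree
    exact h M n hn (cls_of hM)
  refine ⟨D, hD, hsel, ?_, ?_⟩
  · intro hreg W' _ _ hW'
    refine noPoints_of hg hm hdeg (f₀ := twist f d) (fun M _ _ _ hM => ?_) W' hW'
    refine pid_of h2R hm hdeg hirr (fun v hv => ?_) M hM (hsel M hM).1
    have h3 := reg_twist (hD0 D hD).2.1 hreg v hv
    unfold twist at h3
    rwa [← scaleRoots_mul] at h3
  · intro M _ _ _ hM hnc w hw
    refine root_one h2R (fun u hu hi => ?_) hm hdeg hirr M hM hnc w hw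
    have hDu : (D : 𝓞 F) ∉ u.asIdeal := by
      intro h3
      apply hu
      obtain ⟨m, hm'⟩ := (hD0 D hD).2.2
      rw [hm', Nat.cast_mul]
      exact Ideal.mul_mem_right _ _ h3
    have h4 := Pool.Agent.H458.AG.rd_scale hDu (f := f.scaleRoots d) ((monic_scaleRoots_iff _).2 hf.1) hi
    rw [← scaleRoots_mul] at h4
    exact h4

end pf

/-- **Jacobians of every dimension over every number field: almost all of them after a bounded twist.**
For every number field `F`, every `g ≥ 1`, `W ≥ 1`, every finite set `𝒮` of nonzero integers of `F` and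
`ε > 0` there are a finite set `𝒟` of squarefree natural numbers `D ≡ 1 mod 8 W` and a multiple `R` of `2 W` and of
all `D ∈ 𝒟` such that for all large `B` at least `(1 - ε)` times the number of ALL the `f` of height at most `B`
have for every `d ∈ 𝒮` a `D ∈ 𝒟` with the following property, `J` the Jacobian of the twist of
`y ^ 2 = f(x)` by `d D`: for ALL the extensions `M / F` in the class `C(f ^ d, R)` (among them `F`) multiplication
by two is bijective on `J(M)` and the 2-primary part of the Tate-Shafarevich group of `J` over `M` is zero; if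
`Gal(M / F)` is not cyclic, the root number of `J` over `M` is `1`; and if `y ^ 2 = f ^ d (x)` is regular at the primes
over two (this is so for all `f ^ d` in a residue class modulo `4`), then `J(W) = 0` for all the (finite or infinite)
unions `W` of fields in the class. -/
theorem result (F : Type) [Field F] [NumberField F] (g : ℕ) (hg : 1 ≤ g) (W : ℕ) (hW : 0 < W)
    (𝒮 : Finset (𝓞 F)) (h𝒮 : ∀ d ∈ 𝒮, d ≠ 0) (ε : ℝ) (hε : 0 < ε) :
    (∀ B : ℕ, (Polys F g B).Finite) ∧
    (∃ f₂ : (𝓞 F)[X], (f₂.Monic ∧ f₂.natDegree = 2 * g + 1 ∧ f₂.coeff (2 * g) = 0) ∧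
      ∀ f : (𝓞 F)[X], (∀ j, (4 : 𝓞 F) ∣ f.coeff j - f₂.coeff j) → RegularAtTwo f) ∧
    ∃ (R : ℕ) (𝒟 : Finset ℕ), 0 < R ∧ 2 * W ∣ R ∧ 1 ∈ 𝒟 ∧
      (∀ D ∈ 𝒟, Squarefree D ∧ D ≡ 1 [MOD 8 * W] ∧ D ∣ R) ∧
      (∀ f : (𝓞 F)[X], InClass R f F) ∧
      ∀ᶠ B : ℕ in atTop, 0 < (Polys F g B).ncard ∧
        (1 - ε) * ((Polys F g B).ncard : ℝ) ≤ ({f ∈ Polys F g B | ∀ d ∈ 𝒮, ∃ D ∈ 𝒟,
          Good g R (twist f d) f (d * (D : 𝓞 F))}.ncard : ℝ) := by
  have heq : ∀ B, Polys F g B = {f : (𝓞 F)[X] | Pool.Agent.N783.PF.Ht g B f} := by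
    intro B
    ext f
    exact ⟨fun h => ⟨h.monic, h.degree, h.trace, fun j hj σ => h.height j hj σ⟩,
      fun h => ⟨h.mon, h.deg, h.tr, fun j hj σ => h.ht j hj σ⟩⟩
  obtain ⟨hfin, R, 𝒟, hR, hWR, h1, hD, hX⟩ := Pool.Agent.H458.AG.Gen.part F W hW 𝒮 h𝒮 ε hε g hg
  have hfin' : ∀ B : ℕ, (Polys F g B).Finite := fun B => by
    rw [heq]
    exact hfin B
  obtain ⟨f₂, hf₂m, hf₂d, hf₂t, hf₂i, hf₂r⟩ := Pool.Agent.H458.BM.ex5 F g hg
  refine ⟨hfin', ⟨f₂, ⟨hf₂m, hf₂d, hf₂t⟩, fun f hf v hv => ?_⟩, R, 𝒟, hR, hWR, h1, hD, self_mem R, ?_⟩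
  · have h5 : Pool.Agent.H458.PD.RegAt v f := by
      refine (hf₂r v hv).congr fun j => ?_
      obtain ⟨c, hc⟩ := hf j
      rw [hc, show (4 : 𝓞 F) = 2 * 2 by norm_num, pow_two]
      exact Ideal.mul_mem_right _ _ (Ideal.mul_mem_mul hv hv)
    exact h5
  filter_upwards [hX] with B hB
  obtain ⟨h2, h3⟩ := hB
  rw [← heq] at h2 h3
  refine ⟨h2, h3.trans ?_⟩
  have h4 := Set.ncard_le_ncard (s := Pool.Agent.H458.AG.Gen.VV F g R 𝒟 𝒮 ∩ Polys F g B)
    (t := {f ∈ Polys F g B | ∀ d ∈ 𝒮, ∃ D ∈ 𝒟, Good g R (twist f d) f (d * (D : 𝓞 F))})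
    (fun f hf => ⟨hf.2, fun d hd => good_of hg (dvd_of_mul_right_dvd hWR) h𝒮 hD hf.1 hd⟩)
    ((hfin' B).subset fun f hf => hf.1)
  exact_mod_cast h4

end Pool.Agent.Results.MP_1d384c_nt.AlmostAllJacobians
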