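import Mathlib
import Pool.Agent.H451.KF.Def
import Pool.Agent.H451.OP.Def
import Pool.Agent.H451.OQ.Def
import Pool.Agent.H451.OQ.Q3
import Pool.Agent.H451.OQ.Q4

/-!
# The rank part of the conjecture of Birch and Swinnerton-Dyer over a given Kummer extension, for an explicit
share of all the cubic twists

Let `K = ℚ(√-3)`, let `A` and `c_1, …, c_r` be ANY elements of `𝓞 K` prime to `3`, and let
`F = K(∛c_1, …, ∛c_r)` be the Kummer extension which the `c_i` generate. The cubic twist of
`E_A : y ^ 2 + A y = x ^ 3` by `D` is `E_{A D} : y ^ 2 + A D y = x ^ 3`. The `D` considered (`All`) are ALL the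
cube-free elements of `𝓞 K` which are prime to `3`, to `A` and to all the `c_i`, by the norm.

We prove that the rank part of the conjecture holds over `F` for an explicit share of ALL these curves `E_{A D}`,
with both sides zero and for all the pieces at once: `E_{A D}(F)` is finite, `L(E_{A D} / F, s)` is entire and not
zero at `s = 1`, and `L(E_{A D} / K, τ, s)` is entire and not zero at `s = 1` for all the complex representations
`τ` of the Galois group of `F / K` (`RankPart`). The share is at least `(9 - n) / 9 * 0.639 ^ [F : K]`, where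
`n = cells c` is the number of the classes of the products `∏ c_i ^ (l_i)` modulo nine. For example it is at least
`8 / 9 * 0.639 ^ [F : K]` if all the `c_i` are `1` modulo `3` and of norm `1` modulo `9`, and at least
`6 / 9 * 0.639 ^ 3` for `F = K(∛2)` and for `F = ℚ(μ_9) = K(∛ω)`.

The definitions are in `Pool.Agent.H451.OQ.Def`, `Pool.Agent.H451.OP.Def` (`SameClass`, `Excluded`) and
`Pool.Agent.H451.KF.Def` (`IsKummer`, `RankZero`, `EquivariantRankZero`).
-/

set_option autoImplicit false

namespace Pool.Agent.Results.MP_1d384c_nt.EveryKummerExtensionH451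

open NumberField Pool.Agent.H451.KF Pool.Agent.H451.OQ.Ku
open Pool.Agent.H451.TB (prob)
open scoped Classical

/-- **Birch and Swinnerton-Dyer over a given Kummer extension, for an explicit share of all the cubic
twists.** -/
theorem result (K : Type) [Field K] [NumberField K] [IsCyclotomicExtension {3} ℚ K] (r : ℕ)
    (A : 𝓞 K) (c : Fin r → 𝓞 K) (hA : ¬ (3 : ℤ) ∣ Algebra.norm ℤ A)
    (hc : ∀ i, ¬ (3 : ℤ) ∣ Algebra.norm ℤ (c i)) :
    -- (1) the admissible `D`
    ((∀ X : ℕ, (All A c X).Finite) ∧ ∃ c₁ : ℝ, 0 < c₁ ∧ ∃ X₀ : ℕ, ∀ X : ℕ, X₀ ≤ X →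
      c₁ * X ≤ ((All A c X).ncard : ℝ)) ∧
    -- (2) the number of the classes modulo cubes is the degree
    ((∀ (F : Type) [Field F] [NumberField F] [Algebra K F], IsKummer c F →
        Module.finrank K F = classes c) ∧
      cells c ≤ 9 ∧ cells c ≤ classes c ∧ 1 ≤ classes c ∧ classes c ≤ 3 ^ r) ∧
    -- (3) the share of the class
    Filter.Tendsto (fun X : ℕ => ((Cls A c X).ncard : ℝ) / ((All A c X).ncard : ℝ)) Filter.atTop
      (nhds ((9 - cells c) / 9)) ∧
    -- (4) the set of the twists with trivial systems, and its share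
    (∃ G : Set (𝓞 K), (∀ D ∈ G, (∃ X : ℕ, D ∈ Cls A c X) ∧ RankPart A c D) ∧
      Filter.Tendsto (fun X : ℕ => ({D | D ∈ All A c X ∧ D ∈ G}.ncard : ℝ) /
        ((All A c X).ncard : ℝ)) Filter.atTop
        (nhds ((9 - cells c) / 9 * prob 0 ^ classes c))) ∧
    -- (5) the share of the twists for which the rank part holds
    ∃ X₀ : ℕ, ∀ X : ℕ, X₀ ≤ X →
      (9 - cells c) / 9 * 0.639 ^ classes c * ((All A c X).ncard : ℝ) ≤
        ({D | D ∈ All A c X ∧ RankPart A c D}.ncard : ℝ) := by
  obtain ⟨h1, h2, h3, h4, h5⟩ := Pool.Agent.H451.OQ.final_all K r A c hA hc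
  refine ⟨h1, ⟨fun F _ _ _ hF => ?_, h2⟩, h3, h4, h5⟩
  exact Pool.Agent.H451.OQ.degreeK K c hc F hF

end Pool.Agent.Results.MP_1d384c_nt.EveryKummerExtensionH451
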