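import Pool.Agent.H467.PU.Asmj2
import Pool.Agent.H467.PG.Mqf

/-!
# Simultaneous quadratic twists of finitely many arbitrary elliptic curves in characteristic two

Let `K` be any global function field of characteristic two. Every elliptic curve over `K` with `j ≠ 0` has
the form `E_{a, b} : y ^ 2 + x y = x ^ 3 + a x ^ 2 + b` with `b = 1 / j ≠ 0`, and its quadratic twists are the
curves `E_{a + x, b}`, `x ∈ K`, by the extensions `z ^ 2 + z = x`, which correspond to the elements of
`K / {z ^ 2 + z}` and are ordered by the norm of their conductor.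

Theorem. Let `E_i = E_{a_i, b_i}`, `i ∈ I`, be finitely many ARBITRARY elliptic curves over `K` with
`j ≠ 0` (there is no relation between the curves, neither between the `a_i` nor between the `b_i`).
Let `m` be the number of the different classes of the `a_i` in `K / {z ^ 2 + z}`.

(1) The quadratic extensions of `K` which are balanced for all `E_i` (a condition on finitely many local
classes) have a density `δ > 0` among all quadratic extensions of `K`, ordered by the norm of the
conductor. For each `c < δ p_0 ^ m`, `p_0 = ∏_{i ≥ 1} (1 - 2 ^ (-i)) = 0.2887...`, a proportion of at least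
`c` of ALL quadratic extensions of `K` have the property that for all `i` at once the twist of `E_i` has
only finitely many `K`-rational points, and the 2-primary part of its Tate-Shafarevich group is finite
(and killed by two).

(2) The joint law of the Selmer groups. Let `p_r` be the limit of the probabilities that a random `n × n`
matrix over the field with two elements has the corank `r` (`∑ p_r = 1`). For every choice of numbers
`r (γ)`, `γ` one of the `m` classes, the proportion of the extensions for which the Selmer group of the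
Verschiebung of the Frobenius twist of the twist of `E_i` has `2 ^ (r (γ_i) + 1)` elements for all `i`
(`γ_i` the class of `a_i`), among the balanced extensions, tends to the product of the `p_{r (γ)}` over
the `m` classes. So the Selmer groups are independent for curves with different classes (and have equal
orders for equal classes). In particular the proportion of the extensions with the property in (1)
among the balanced extensions is in the limit at least `p_0 ^ m`.

(3) Let `L = K (z_1, ..., z_n)`, `z_j ^ 2 + z_j = ψ_j ∈ K`, be any multiquadratic extension of `K`. Then for a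
positive proportion of all quadratic extensions of `K` the twists of all `E_i` have only finitely many
`L`-rational points, and all their further twists by the characters of `L / K` have the property
in (1).

Let `A` be an abelian variety over `K` which is isogenous to a product of elliptic curves with `j ≠ 0`, or
to the Weil restriction of such a product from a multiquadratic extension of `K`. By the known
theorem of Kato and Trihan (for `l = p = 2`; Artin-Tate and Milne for elliptic curves) the twists of `A`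
satisfy the conjecture of Birch and Swinnerton-Dyer, with rank zero, for a positive proportion of all
quadratic extensions of `K`, ordered by conductor.

The question of the simultaneous non-vanishing of `L (E ⊗ χ, 1)` and `L (E ⊗ χ ψ, 1)` for a fixed `ψ` is open
over the rational numbers (for two twists); here it is answered for every finite number of curves and of
characters `ψ`, with a positive proportion of the `χ`.

The proof. The Selmer group of the Verschiebung for the Frobenius twist of `E_i ^ χ` depends only on the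
class of `χ + a_i` if `χ` is balanced. It is described by a matrix of residue symbols
`Tr Res_v ((χ + a_i) dlog f)`; the matrices for different classes `a_i` differ only on the diagonal
(at the primes which do not split in `z ^ 2 + z = a_i + a_j`) and in finitely many columns. For almost
all divisors in place of the conductor the matrices are close to random matrices, and one shows that
the left kernels of all but the last columns are independent subspaces if `χ` is ramified at
sufficiently many large primes which do not split in the extensions `z ^ 2 + z = a_i + a_j`; for almost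
all divisors this is the case. So the coranks of the matrices are asymptotically independent.

The density of the balanced extensions: the number of the extensions with given local classes at
finitely many places is a sum over the characters of a finite group of the numbers of effective
divisors with a character, and these are compared for all conductors at the finitely many places.

Projects PJ and DN: helper467, with parts by helpers 118, 199, 295, 333, 670, 671, 784, 795, 955, 974,
763 (PJ), 23, 106, 196, 218, 307, 322, 358, 372, 599, 627, 703, 719, 733, 784, 808, 887, 976 (DN) and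
the authors of the parts of project PG (see `MP_ae0bd0_nt.CompleteSelmerLawOfAllTwists`, which is the
exact law of the Selmer group for one curve and arbitrary local conditions).
-/

set_option autoImplicit false
set_option linter.all false

namespace Pool.Agent.Results.MP_1d384c_nt.EveryProductOfCurvesCharTwo

open Filter Pool.Agent.TH115.GD
open Pool.Agent.H467.GK (Vl Cm IsFF LTA)
open scoped Classical

/-! ### Places and quadratic extensions -/

/-- The places of `K`: the discrete valuations of `K` with value group `ℤ` (written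
multiplicatively). -/
def Place (K : Type) [Field K] : Type :=
  {v : Valuation K (WithZero (Multiplicative ℤ)) // Function.Surjective v}

/-- The elements `z ^ 2 + z` of `K`. -/
def wp (K : Type) [Field K] [CharP K 2] : AddSubgroup K where
  carrier := {x | ∃ z : K, x = z ^ 2 + z}
  add_mem' := (Pool.Agent.H467.PG.wp K).add_mem'
  zero_mem' := (Pool.Agent.H467.PG.wp K).zero_mem'
  neg_mem' := (Pool.Agent.H467.PG.wp K).neg_mem'

/-- The (separable) quadratic extensions `z ^ 2 + z = a` of `K`, including the trivial one: the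
elements of `K / {z ^ 2 + z}`. -/
abbrev Ext (K : Type) [Field K] [CharP K 2] : Type := K ⧸ wp K

/-- The extension `z ^ 2 + z = a`. -/
def ext {K : Type} [Field K] [CharP K 2] (a : K) : Ext K := QuotientAddGroup.mk a

/-- The number of elements of the residue field. -/
noncomputable def resCard {K : Type} [Field K] (v : Place K) : ℕ :=
  Nat.card (IsLocalRing.ResidueField v.1.valuationSubring)

/-- The smallest order of the pole of an element `a + z ^ 2 + z` at `v`. -/
noncomputable def poleOrder {K : Type} [Field K] (v : Place K) (a : K) : ℕ :=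
  sInf {n : ℕ | ∃ z : K, v.1 (a + z ^ 2 + z) ≤ WithZero.exp (n : ℤ)}

/-- The exponent of the conductor of the extension `z ^ 2 + z = a` at `v`. -/
noncomputable def condExp {K : Type} [Field K] (v : Place K) (a : K) : ℕ :=
  if poleOrder v a = 0 then 0 else poleOrder v a + 1

/-- The norm of the conductor of the extension `z ^ 2 + z = a`. -/
noncomputable def condNorm {K : Type} [Field K] (a : K) : ℕ :=
  ∏ᶠ v : Place K, resCard v ^ condExp v a

/-- The quadratic extensions with conductor of norm at most `X`. -/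
def ExtLE (K : Type) [Field K] [CharP K 2] (X : ℕ) : Set (Ext K) :=
  {χ | ∃ a : K, ext a = χ ∧ condNorm a ≤ X}

/-! ### The curves and their Selmer groups -/

/-- The curve `y ^ 2 + x y = x ^ 3 + a x ^ 2 + b`. -/
def curve {K : Type} [Field K] (a b : K) : WeierstrassCurve K := ⟨1, a, 0, 0, b⟩

/-- The curve with the coefficients `a`, `b` is balanced at `v`. -/
def BalancedAt {K : Type} [Field K] (v : Place K) (a b : K) : Prop :=
  v.1 b = 1 ∨ (v.1 b < 1 ∧ ¬ ∃ z : K, v.1 (a + z ^ 2 + z) < 1) ∨
    (1 < v.1 b ∧ ∀ z : K, v.1 b ^ 2 < v.1 (a + z ^ 2 + z))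

/-- The quadratic extensions `z ^ 2 + z = x` with conductor of norm at most `X`, such that the twists of
the curves `y ^ 2 + x y = x ^ 3 + a i x ^ 2 + b i` are balanced at all places, for all `i`. -/
def BalancedLE {K : Type} [Field K] [CharP K 2] {I : Type} (a b : I → K) (X : ℕ) :
    Set (Ext K) :=
  {χ ∈ ExtLE K X | ∀ x : K, ext x = χ → ∀ i, ∀ v : Place K, BalancedAt v (a i + x) (b i)}

/-- The image of the `L`-rational points of `E : y ^ 2 + x y = x ^ 3 + a x ^ 2 + b` under the homomorphism
`E (L) → L / {z ^ 2 + z} = H ^ 1 (L, ℤ / 2)`, which maps `(x, y)` to the class of `x + a`. This is the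
connecting homomorphism of the Verschiebung `E ^ (2) → E`, the kernel of which has the elements `0` and
`(0, b)`. -/
def InImage {L : Type} [Field L] (a b α : L) : Prop :=
  (∃ z : L, α = z ^ 2 + z) ∨
    ∃ x y z : L, y ^ 2 + x * y = x ^ 3 + a * x ^ 2 + b ∧ α + (x + a) = z ^ 2 + z

/-- The embedding of `K` in its completion at `v`. -/
noncomputable def toCompletion {K : Type} [Field K] (v : Place K) (x : K) : Cm v.1 :=
  algebraMap K (Cm v.1) x

/-- The Selmer group of the Verschiebung `E ^ (2) → E`, `E : y ^ 2 + x y = x ^ 3 + a x ^ 2 + b`. -/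
def Selmer {K : Type} [Field K] [CharP K 2] (a b : K) : Set (Ext K) :=
  {χ | ∀ α : K, ext α = χ → ∀ v : Place K,
    InImage (toCompletion v a) (toCompletion v b) (toCompletion v α)}

/-- The cocycle `f` of the absolute Galois group of `K` with values in `E (Sep K)` gives an element
of the 2-primary part of the Tate-Shafarevich group. -/
def InSha {K : Type} [Field K] (E : WeierstrassCurve K)
    (f : (Sep K ≃ₐ[K] Sep K) → Pt E (Sep K)) : Prop :=
  IsCoc E f ∧ LTA E f ∧
    ∃ (n : ℕ) (R : Pt E (Sep K)), ∀ σ, 2 ^ n • f σ = act E (rs K σ) R - R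

/-- There are only finitely many `K`-rational points, and the 2-primary part of the
Tate-Shafarevich group is finite and killed by two. -/
def RankZero {K : Type} [Field K] (E : WeierstrassCurve K) : Prop :=
  Finite (Pt E K) ∧
  (∀ f, InSha E f → ∃ R : Pt E (Sep K), ∀ σ, 2 • f σ = act E (rs K σ) R - R) ∧
  ∃ F : Finset ((Sep K ≃ₐ[K] Sep K) → Pt E (Sep K)), ∀ f, InSha E f →
    ∃ g ∈ F, ∃ R : Pt E (Sep K), ∀ σ, f σ - g σ = act E (rs K σ) R - R

/-- For all `i` the twist of `y ^ 2 + x y = x ^ 3 + a i x ^ 2 + b i` by the extension `χ` has the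
property `RankZero`. -/
def AllRankZero {K : Type} [Field K] [CharP K 2] {I : Type} (a b : I → K) (χ : Ext K) : Prop :=
  ∀ x : K, ext x = χ → ∀ i, RankZero (curve (a i + x) (b i))

/-- For all `i` the twist of `y ^ 2 + x y = x ^ 3 + a i x ^ 2 + b i` by the extension `χ` has only finitely
many points over `L`. -/
def AllFiniteOver {K : Type} [Field K] [CharP K 2] (L : Type) [Field L] [Algebra K L] {I : Type}
    (a b : I → K) (χ : Ext K) : Prop :=
  ∀ x : K, ext x = χ → ∀ i, Finite (Pt (curve (a i + x) (b i)) L)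

/-- `L` is generated over `K` by the elements `z j`, and `z j ^ 2 + z j = ψ j ∈ K`. -/
def Generates {K L : Type} [Field K] [Field L] [Algebra K L] {n : ℕ} (ψ : Fin n → K)
    (z : Fin n → L) : Prop :=
  (∀ j, z j ^ 2 + z j = algebraMap K L (ψ j)) ∧ IntermediateField.adjoin K (Set.range z) = ⊤

/-- The limit, for `n → ∞`, of the probabilities that a random `n × n` matrix over the field with two
elements has the corank `r`. -/
noncomputable def prob (r : ℕ) : ℝ :=
  (1 / 2) ^ (r ^ 2) * (∏' i : ℕ, (1 - (1 / 2 : ℝ) ^ (i + 1))) /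
    ∏ i ∈ Finset.range r, (1 - (1 / 2 : ℝ) ^ (i + 1)) ^ 2

/-- The product of the `prob (r γ)`, `γ` runs through the classes of the elements `a i` in
`K / {z ^ 2 + z}`. -/
noncomputable def jointProb {K : Type} [Field K] [CharP K 2] {I : Type} (a : I → K)
    (r : Ext K → ℕ) : ℝ :=
  ∏ᶠ γ ∈ {γ : Ext K | ∃ i, ext (a i) = γ}, prob (r γ)

/-- The balanced extensions with conductor of norm at most `X` such that for all `i` the Selmer group
of the Verschiebung `E ^ (4) → E ^ (2)` has `2 ^ (r γ + 1)` elements, where `E` is the twist of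
`y ^ 2 + x y = x ^ 3 + a i x ^ 2 + b i`, and `γ` is the class of `a i`. -/
def JointSelmer {K : Type} [Field K] [CharP K 2] {I : Type} (a b : I → K) (r : Ext K → ℕ)
    (X : ℕ) : Set (Ext K) :=
  {χ ∈ BalancedLE a b X | ∀ x : K, ext x = χ → ∀ i,
    (Selmer ((a i + x) ^ 2) ((b i) ^ 2)).ncard = 2 ^ (r (ext (a i)) + 1)}

/-- The number of the different classes of the elements `a i` in `K / {z ^ 2 + z}`. -/
noncomputable def classes {K : Type} [Field K] [CharP K 2] {I : Type} (a : I → K) : ℕ :=
  Nat.card {γ : Ext K // ∃ i, ext (a i) = γ}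

/-! ### Proportions -/

/-- The sets `S X` are finite and have at most `C X` elements. -/
def AtMostLinear {α : Type} (S : ℕ → Set α) : Prop :=
  ∃ C : ℝ, ∀ X : ℕ, (S X).Finite ∧ ((S X).ncard : ℝ) ≤ C * X

/-- For large `X` the set `S X` has at least `c X` elements, `c > 0`. -/
def AtLeastLinear {α : Type} (S : ℕ → Set α) : Prop :=
  ∃ c : ℝ, 0 < c ∧ ∀ᶠ X : ℕ in atTop, c * (X : ℝ) ≤ ((S X).ncard : ℝ)

/-- The proportion of the elements of `T X` which are in `S X` tends to `p`. -/
def HasDensity {α : Type} (S T : ℕ → Set α) (p : ℝ) : Prop :=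
  Tendsto (fun X : ℕ => ((S X).ncard : ℝ) / ((T X).ncard : ℝ)) atTop (nhds p)

/-- For large `X` the set `S X` has at least `c` times as many elements as `T X`. -/
def AtLeastShare {α : Type} (S T : ℕ → Set α) (c : ℝ) : Prop :=
  ∀ᶠ X : ℕ in atTop, c * ((T X).ncard : ℝ) ≤ ((S X).ncard : ℝ)

/-! ### Comparison with the helper files -/

section aux

open Pool.Agent.H467.PG

theorem rankZero_of {k K : Type} [Field k] [Finite k] [CharP k 2] [Field K] [CharP K 2]
    [Algebra k K] (hK : IsFF k K) (a b : K) (hb : b ≠ 0) (hbal : ∀ v : Place K, BalancedAt v a b)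
    (ha : ¬ ∃ z : K, a = z ^ 2 + z) (h2 : (SV (mkq a)).ncard = 2) : RankZero (curve a b) := by
  obtain ⟨F⟩ := Fin.hGF k K hK
  obtain ⟨h3, h4, F', h5⟩ := (Fin.hONE k K hK F a b hb fun j => hbal j).2 ha h2
  exact ⟨h3, fun f hf => h4 f hf.1 hf.2.1 hf.2.2, F', fun f hf => h5 f hf.1 hf.2.1 hf.2.2⟩

theorem alp_zero : alp 0 = prob 0 := rfl

/-- The first part. -/
theorem main (k K : Type) [Field k] [Finite k] [CharP k 2] [Field K] [CharP K 2] [Algebra k K]
    (hK : IsFF k K) (I : Type) [Finite I] (a b : I → K) (hb : ∀ i, b i ≠ 0) :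
    AtMostLinear (ExtLE K) ∧ AtLeastLinear (BalancedLE a b) ∧
    (∀ c : ℝ, c < prob 0 ^ classes a →
      AtLeastShare (fun X => {χ ∈ BalancedLE a b X | AllRankZero a b χ}) (BalancedLE a b) c) ∧
    ∃ c : ℝ, 0 < c ∧ AtLeastShare (fun X => {χ ∈ ExtLE K X | AllRankZero a b χ}) (ExtLE K) c := by
  letI : Fintype I := Fintype.ofFinite I
  haveI hfin : Finite (Asmj.Cl a) := by
    have : Function.Surjective (fun i : I => (⟨mkq (a i), i, rfl⟩ : Asmj.Cl a)) := by
      rintro ⟨γ, i, rfl⟩
      exact ⟨i, rfl⟩
    exact Finite.of_surjective _ this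
  letI : Fintype (Asmj.Cl a) := Fintype.ofFinite _
  obtain ⟨⟨C, hC⟩, ⟨c, hc, h1⟩, h2⟩ := Asmj.lawj Fin.hGF Finj.dstj Bex.bex Fin.hPOQ Fin.hHSD k K hK
    I a b hb
  have hC' : ∀ X : ℕ, (ExtLE K X).Finite ∧ ((ExtLE K X).ncard : ℝ) ≤ C * X := hC
  have h1' : ∀ᶠ X : ℕ in atTop, c * (X : ℝ) ≤ ((BalancedLE a b X).ncard : ℝ) := h1
  have hfinB : ∀ X, (BalancedLE a b X).Finite := fun X => (hC' X).1.subset fun χ h => h.1
  have hcard : Fintype.card (Asmj.Cl a) = classes a := by
    rw [← Nat.card_eq_fintype_card]
    rfl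
  have hprod : ∏ γ : Asmj.Cl a, alp ((fun _ => 0 : Asmj.Cl a → ℕ) γ) = prob 0 ^ classes a := by
    rw [Finset.prod_const, alp_zero, Finset.card_univ, hcard]
  have hlaw := h2 (fun _ => 0)
  rw [hprod] at hlaw
  have hX : Tendsto (fun X : ℕ => ((BalancedLE a b X).ncard : ℝ)) atTop atTop := by
    refine tendsto_atTop_mono' atTop h1' ?_
    exact Tendsto.const_mul_atTop hc tendsto_natCast_atTop_atTop
  have hrz : ∀ c : ℝ, c < prob 0 ^ classes a → ∀ᶠ X : ℕ in atTop,
      c * ((BalancedLE a b X).ncard : ℝ) ≤
        ({χ ∈ BalancedLE a b X | AllRankZero a b χ}.ncard : ℝ) := by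
    intro c hc
    obtain ⟨c₁, hc1, hc2⟩ := exists_between hc
    have h3 := hlaw.eventually (lt_mem_nhds hc2)
    filter_upwards [h3, hX.eventually_ge_atTop ((Fintype.card I : ℝ) / (c₁ - c)),
      hX.eventually_gt_atTop 0] with X h4 h5 h6
    let W : Set (Qc K) := {χ : Qc K | ((∃ x, mkq x = χ ∧ Asm.cN x ≤ X) ∧ Asmj.BalB a b χ) ∧
      ∀ γ : Asmj.Cl a, (SV (χ + γ.1)).ncard = 2 ^ (0 + 1)}
    have h7 : c₁ * ((BalancedLE a b X).ncard : ℝ) < (W.ncard : ℝ) := by
      have h8 : c₁ < (W.ncard : ℝ) / ((BalancedLE a b X).ncard : ℝ) := h4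
      rwa [lt_div_iff₀ h6] at h8
    let T : Finset (Qc K) := Finset.univ.image fun i : I => mkq (a i)
    have h8 : W.ncard ≤
        {χ ∈ BalancedLE a b X | AllRankZero a b χ}.ncard + Fintype.card I := by
      have h9 : W ⊆ {χ ∈ BalancedLE a b X | AllRankZero a b χ} ∪ (T : Set (Qc K)) := by
        rintro χ ⟨h9, h10⟩
        by_cases h11 : ∃ i, χ = mkq (a i)
        · obtain ⟨i, hi⟩ := h11
          exact Or.inr (Finset.mem_coe.2 (Finset.mem_image.2 ⟨i, Finset.mem_univ _, hi.symm⟩))
        · refine Or.inl ⟨h9, fun x hx i => ?_⟩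
          change mkq x = χ at hx
          refine rankZero_of hK (a i + x) (b i) (hb i) (fun v => h9.2 x hx i v) ?_ ?_
          · rintro ⟨z, hz⟩
            apply h11
            refine ⟨i, ?_⟩
            rw [← hx]
            refine Asm.mkq_eq.2 ⟨z, ?_⟩
            have h12 : x = a i + (a i + x) := by
              rw [← add_assoc, CharTwo.add_self_eq_zero, zero_add]
            rw [h12, hz]
            ring
          · have h12 := h10 ⟨mkq (a i), i, rfl⟩
            rw [← hx, ← Asm.mkq_add, add_comm x (a i)] at h12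
            simpa using h12
      have hfinR : {χ ∈ BalancedLE a b X | AllRankZero a b χ}.Finite :=
        (hfinB X).subset fun χ h => h.1
      have hT : (T : Set (Qc K)).ncard ≤ Fintype.card I := by
        rw [Set.ncard_coe_finset]
        exact Finset.card_image_le
      refine le_trans (Set.ncard_le_ncard h9 (hfinR.union T.finite_toSet)) ?_
      exact (Set.ncard_union_le _ _).trans (Nat.add_le_add_left hT _)
    have h9 : (Fintype.card I : ℝ) ≤ (c₁ - c) * ((BalancedLE a b X).ncard : ℝ) := by
      have h10 : 0 < c₁ - c := sub_pos.2 hc1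
      rw [div_le_iff₀ h10] at h5
      linarith
    have h10 : (W.ncard : ℝ) ≤
        ({χ ∈ BalancedLE a b X | AllRankZero a b χ}.ncard : ℝ) + (Fintype.card I : ℝ) := by
      exact_mod_cast h8
    linarith
  have hp0 : (0 : ℝ) < prob 0 := by
    have := Pnr.pnr.2.1
    rw [alp_zero] at this
    exact lt_trans (by norm_num) this
  have hpm : 0 < prob 0 ^ classes a := pow_pos hp0 _
  refine ⟨⟨C, hC'⟩, ⟨c, hc, h1'⟩, hrz, ?_⟩
  refine ⟨(prob 0 ^ classes a / 2) * c / max C 1, by positivity, ?_⟩
  filter_upwards [hrz (prob 0 ^ classes a / 2) (by linarith), h1'] with X h3 h4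
  have h5 : ({χ ∈ BalancedLE a b X | AllRankZero a b χ}.ncard : ℝ) ≤
      ({χ ∈ ExtLE K X | AllRankZero a b χ}.ncard : ℝ) := by
    have h6 := Set.ncard_le_ncard (s := {χ ∈ BalancedLE a b X | AllRankZero a b χ})
      (t := {χ ∈ ExtLE K X | AllRankZero a b χ})
      (fun χ h => ⟨h.1.1, h.2⟩) ((hC' X).1.subset fun χ h => h.1)
    exact_mod_cast h6
  refine le_trans ?_ h5
  refine le_trans ?_ h3
  have h6 : ((ExtLE K X).ncard : ℝ) ≤ max C 1 * X :=
    (hC' X).2.trans (mul_le_mul_of_nonneg_right (le_max_left _ _) (by positivity))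
  have h7 : 0 < max C 1 := lt_of_lt_of_le one_pos (le_max_right _ _)
  rw [div_mul_eq_mul_div, div_le_iff₀ h7]
  have h8 : 0 ≤ prob 0 ^ classes a / 2 * c := by positivity
  have h9 : 0 ≤ prob 0 ^ classes a / 2 := by positivity
  calc prob 0 ^ classes a / 2 * c * ((ExtLE K X).ncard : ℝ) ≤
        prob 0 ^ classes a / 2 * c * (max C 1 * X) := mul_le_mul_of_nonneg_left h6 h8
    _ = prob 0 ^ classes a / 2 * (c * X) * max C 1 := by ring
    _ ≤ prob 0 ^ classes a / 2 * ((BalancedLE a b X).ncard : ℝ) * max C 1 :=
        mul_le_mul_of_nonneg_right (mul_le_mul_of_nonneg_left h4 h9) h7.le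

theorem inImage_iff {L : Type} [Field L] [CharP L 2] (a b α : L) :
    InImage a b α ↔ Pool.Agent.H467.CT.LV a b α := by
  unfold InImage Pool.Agent.H467.CT.LV Pool.Agent.H467.CT.AS
  refine or_congr Iff.rfl (exists_congr fun x => ?_)
  have h2 : ∀ w : L, w + w = 0 := CharTwo.add_self_eq_zero
  constructor
  · rintro ⟨y, z, h1, hz⟩
    refine ⟨⟨z, by rw [← hz]; ring⟩, fun hx => ?_, ?_⟩
    · refine ⟨y / x, ?_⟩
      have hx2 : x ^ 2 ≠ 0 := pow_ne_zero 2 hx
      have h3 : (y / x) ^ 2 + y / x = (y ^ 2 + x * y) / x ^ 2 := by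
        field_simp
      rw [h3, h1]
      field_simp
    · rintro rfl
      refine ⟨y, ?_⟩
      have h3 : y ^ 2 = b := by
        have : y ^ 2 + 0 * y = y ^ 2 := by ring
        rw [← this, h1]
        ring
      rw [← h3, pow_two]
  · rintro ⟨⟨z, hz⟩, h3, h4⟩
    by_cases hx : x = 0
    · obtain ⟨y, hy⟩ := h4 hx
      refine ⟨y, z, ?_, by rw [← hz]; ring⟩
      rw [hx, hy]
      ring
    · obtain ⟨w, hw⟩ := h3 hx
      refine ⟨x * w, z, ?_, by rw [← hz]; ring⟩
      have h5 : (x * w) ^ 2 + x * (x * w) = x ^ 2 * (w ^ 2 + w) := by ring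
      rw [h5, ← hw]
      field_simp

/-- The completions have characteristic two. -/
instance {K : Type} [Field K] [CharP K 2] (v : Place K) : CharP (Cm v.1) 2 :=
  charP_of_injective_algebraMap (algebraMap K (Cm v.1)).injective 2

theorem selmer_eq {K : Type} [Field K] [CharP K 2] (a b : K) :
    Selmer a b = {χ : Qc K | ∀ α : K, mkq α = χ → Pool.Agent.H467.GK.AllVA a b α} := by
  ext χ
  constructor
  · intro h α hα u hu
    exact (inImage_iff _ _ _).1 (h α hα ⟨u, hu⟩)
  · intro h α hα v
    exact (inImage_iff _ _ _).2 (h α hα v.1 v.2)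

theorem selmer_SV {k K : Type} [Field k] [Finite k] [CharP k 2] [Field K] [CharP K 2] [Algebra k K]
    (hK : IsFF k K) (a b : K) (hb : b ≠ 0) (hbal : ∀ v : Place K, BalancedAt v a b) :
    Selmer (a ^ 2) (b ^ 2) = SV (mkq a) := by
  obtain ⟨F⟩ := Fin.hGF k K hK
  have h := (Fin.hONE k K hK F a b hb fun j => hbal j).1
  rw [selmer_eq]
  ext χ
  constructor
  · intro h1
    obtain ⟨α, rfl⟩ := Asm.mkq_surj χ
    exact (h α).1 (h1 α rfl)
  · rintro h1 α rfl
    exact (h α).2 h1

/-- The joint law. -/
theorem joint (k K : Type) [Field k] [Finite k] [CharP k 2] [Field K] [CharP K 2] [Algebra k K]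
    (hK : IsFF k K) (I : Type) [Finite I] (a b : I → K) (hb : ∀ i, b i ≠ 0) (r : Ext K → ℕ) :
    HasDensity (JointSelmer a b r) (BalancedLE a b) (jointProb a r) := by
  letI : Fintype I := Fintype.ofFinite I
  haveI hfin : Finite (Asmj.Cl a) := by
    have : Function.Surjective (fun i : I => (⟨mkq (a i), i, rfl⟩ : Asmj.Cl a)) := by
      rintro ⟨γ, i, rfl⟩
      exact ⟨i, rfl⟩
    exact Finite.of_surjective _ this
  letI : Fintype (Asmj.Cl a) := Fintype.ofFinite _
  obtain ⟨-, -, h2⟩ := Asmj.lawj Fin.hGF Finj.dstj Bex.bex Fin.hPOQ Fin.hHSD k K hK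
    I a b hb
  have h3 := h2 (fun γ => r γ.1)
  have e1 : jointProb a r = ∏ γ : Asmj.Cl a, alp (r γ.1) := by
    unfold jointProb
    rw [← finprod_eq_prod_of_fintype]
    exact (finprod_set_coe_eq_finprod_mem {γ : Qc K | ∃ i, mkq (a i) = γ}
      (f := fun γ => alp (r γ))).symm
  rw [e1]
  refine h3.congr fun X => ?_
  have e2 : {χ : Qc K | ((∃ x, mkq x = χ ∧ Asm.cN x ≤ X) ∧ Asmj.BalB a b χ) ∧
      ∀ γ : Asmj.Cl a, (SV (χ + γ.1)).ncard = 2 ^ (r γ.1 + 1)} = JointSelmer a b r X := by
    ext χ
    have hb1 : ∀ x : K, ext x = χ → χ ∈ BalancedLE a b X → ∀ i,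
        Selmer ((a i + x) ^ 2) ((b i) ^ 2) = SV (χ + mkq (a i)) := by
      intro x hx h i
      rw [selmer_SV hK (a i + x) (b i) (hb i) fun v => h.2 x hx i v, Asm.mkq_add, add_comm]
      change SV (mkq x + mkq (a i)) = _
      have hx' : mkq x = χ := hx
      rw [hx']
    constructor
    · rintro ⟨h4, h5⟩
      refine ⟨h4, fun x hx i => ?_⟩
      rw [hb1 x hx h4 i]
      exact h5 ⟨mkq (a i), i, rfl⟩
    · rintro ⟨h4, h5⟩
      refine ⟨h4, ?_⟩
      rintro ⟨γ, i, rfl⟩
      obtain ⟨x, hx⟩ := Asm.mkq_surj χ
      have h6 := h5 x hx i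
      rw [hb1 x hx h4 i] at h6
      exact h6
  rw [e2]
  rfl

/-- The density of the balanced extensions, and the proportion of rank zero among all extensions. -/
theorem main2 (k K : Type) [Field k] [Finite k] [CharP k 2] [Field K] [CharP K 2] [Algebra k K]
    (hK : IsFF k K) (I : Type) [Finite I] (a b : I → K) (hb : ∀ i, b i ≠ 0) :
    ∃ δ : ℝ, 0 < δ ∧ HasDensity (BalancedLE a b) (ExtLE K) δ ∧
      ∀ c : ℝ, c < δ * prob 0 ^ classes a →
        AtLeastShare (fun X => {χ ∈ ExtLE K X | AllRankZero a b χ}) (ExtLE K) c := by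
  obtain ⟨⟨C, hC⟩, h1, h3, -⟩ := main k K hK I a b hb
  obtain ⟨δ, hδ, h4⟩ := Pool.Agent.H467.PU.Asmj2.densB (k := k) hK I a b hb h1
  have hd : HasDensity (BalancedLE a b) (ExtLE K) δ := h4
  refine ⟨δ, hδ, hd, fun c hc => ?_⟩
  have hp0 : (0 : ℝ) < prob 0 := by
    have := Pnr.pnr.2.1
    rw [alp_zero] at this
    exact lt_trans (by norm_num) this
  have hpm : 0 < prob 0 ^ classes a := pow_pos hp0 _
  obtain ⟨c', hc'⟩ : ∃ c', c' = max c 0 := ⟨_, rfl⟩
  have g1 : c' < δ * prob 0 ^ classes a := by
    rw [hc']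
    exact max_lt hc (mul_pos hδ hpm)
  have g2 : 0 ≤ c' := by rw [hc']; exact le_max_right _ _
  obtain ⟨c₁, g3, g4⟩ := exists_between (show c' / δ < prob 0 ^ classes a by
    rw [div_lt_iff₀ hδ, mul_comm]
    exact g1)
  have g5 : 0 < c₁ := lt_of_le_of_lt (div_nonneg g2 hδ.le) g3
  have g6 : c' / c₁ < δ := by
    rw [div_lt_iff₀ g5]
    rw [div_lt_iff₀ hδ] at g3
    linarith
  filter_upwards [h3 c₁ g4, hd.eventually (lt_mem_nhds g6)] with X h7 h8
  have h9 : ({χ ∈ BalancedLE a b X | AllRankZero a b χ}.ncard : ℝ) ≤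
      ({χ ∈ ExtLE K X | AllRankZero a b χ}.ncard : ℝ) := by
    have h10 := Set.ncard_le_ncard (s := {χ ∈ BalancedLE a b X | AllRankZero a b χ})
      (t := {χ ∈ ExtLE K X | AllRankZero a b χ})
      (fun χ h => ⟨h.1.1, h.2⟩) ((hC X).1.subset fun χ h => h.1)
    exact_mod_cast h10
  refine le_trans ?_ (h7.trans h9)
  have h10 : (0 : ℝ) ≤ ((ExtLE K X).ncard : ℝ) := Nat.cast_nonneg _
  have h11 : c * ((ExtLE K X).ncard : ℝ) ≤ c' * ((ExtLE K X).ncard : ℝ) :=
    mul_le_mul_of_nonneg_right (by rw [hc']; exact le_max_left _ _) h10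
  refine h11.trans ?_
  rcases h10.eq_or_lt with h12 | h12
  · rw [← h12, mul_zero]
    exact mul_nonneg g5.le (Nat.cast_nonneg _)
  · rw [lt_div_iff₀ h12, div_mul_eq_mul_div, div_lt_iff₀ g5] at h8
    linarith

end aux

/-- **Theorem.** Let `K` be a global function field of characteristic two, `k` a finite field contained
in `K`, and let `a i`, `b i ≠ 0`, `i ∈ I`, be finitely many elements of `K`. -/
theorem result (k K : Type) [Field k] [Finite k] [CharP k 2] [Field K] [CharP K 2] [Algebra k K]
    (hK : IsFF k K) (I : Type) [Finite I] (a b : I → K) (hb : ∀ i, b i ≠ 0) :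
    -- (1) the balanced extensions have a density; all curves at once, among all extensions
    (AtMostLinear (ExtLE K) ∧ ∃ δ : ℝ, 0 < δ ∧ HasDensity (BalancedLE a b) (ExtLE K) δ ∧
      ∀ c : ℝ, c < δ * prob 0 ^ classes a →
        AtLeastShare (fun X => {χ ∈ ExtLE K X | AllRankZero a b χ}) (ExtLE K) c) ∧
    -- (2) the joint law of the Selmer groups
    ((∀ r : Ext K → ℕ, HasDensity (JointSelmer a b r) (BalancedLE a b) (jointProb a r)) ∧
      HasSum prob 1 ∧ (288 / 1000 : ℝ) < prob 0 ∧
      ∀ c : ℝ, c < prob 0 ^ classes a →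
        AtLeastShare (fun X => {χ ∈ BalancedLE a b X | AllRankZero a b χ}) (BalancedLE a b) c) ∧
    -- (3) over multiquadratic extensions
    ∀ (L : Type) [Field L] [Algebra K L] (n : ℕ) (ψ : Fin n → K) (z : Fin n → L),
      Generates ψ z → ∃ c : ℝ, 0 < c ∧ AtLeastShare (fun X => {χ ∈ ExtLE K X |
        AllFiniteOver L a b χ ∧ ∀ T : Finset (Fin n),
          AllRankZero (fun i => a i + ∑ j ∈ T, ψ j) b χ}) (ExtLE K) c := by
  obtain ⟨h1, h2, h3, h4⟩ := main k K hK I a b hb
  have hp := Pool.Agent.H467.PG.Pnr.pnr.2.1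
  rw [alp_zero] at hp
  refine ⟨⟨h1, main2 k K hK I a b hb⟩, ⟨fun r => joint k K hK I a b hb r,
    Pool.Agent.H467.PG.Pnr.pnr.2.2, hp, h3⟩, ?_⟩
  intro L _ _ n ψ z hz
  obtain ⟨-, -, -, c, hc, h5⟩ := main k K hK (I × Finset (Fin n))
    (fun i => a i.1 + ∑ j ∈ i.2, ψ j) (fun i => b i.1) (fun i => hb i.1)
  refine ⟨c, hc, ?_⟩
  filter_upwards [h5] with X hX
  refine hX.trans ?_
  have h6 : {χ ∈ ExtLE K X | AllRankZero (fun i : I × Finset (Fin n) => a i.1 + ∑ j ∈ i.2, ψ j)
      (fun i => b i.1) χ} ⊆ {χ ∈ ExtLE K X | AllFiniteOver L a b χ ∧ ∀ T : Finset (Fin n),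
          AllRankZero (fun i => a i + ∑ j ∈ T, ψ j) b χ} := by
    rintro χ ⟨h7, h8⟩
    refine ⟨h7, fun x hx i => ?_, fun T x hx i => h8 x hx (i, T)⟩
    refine Pool.Agent.H467.PG.Mqf.mqf K L n z ψ hz.1 hz.2 (a i + x) (b i) (hb i) fun T => ?_
    have h9 := (h8 x hx (i, T)).1
    have e : a i + ∑ j ∈ T, ψ j + x = a i + x + ∑ j ∈ T, ψ j := by ring
    have h10 : Finite (Pt (curve (a i + ∑ j ∈ T, ψ j + x) (b i)) K) := h9
    rw [e] at h10
    exact h10
  have h7 := Set.ncard_le_ncard h6 ((h1.choose_spec X).1.subset fun χ h => h.1)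
  exact_mod_cast h7

end Pool.Agent.Results.MP_1d384c_nt.EveryProductOfCurvesCharTwo
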