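import Pool.Agent.H427.CL.Mean
import Pool.Agent.H427.QX.GenT
import Pool.Agent.H427.QK.Nbc
import Pool.Graph.R_pool_sql_team_seeded_b677cdb8.E8helper75.WR.All
import Pool.Graph.R_seed8.Y948.CQ.C2
import Pool.Graph.R_seed8.Y699.R10
import Pool.Graph.R_seed8.TH402.AK.Gauss

/-!
# The quartic twists `y² = x³ + 2 D g² x`, `g ∣ D`, over `ℚ(i)`: the law and all the moments of the
# Selmer ranks, the average rank, rank part and 2-part for an exact proportion, with a criterion for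
# every single one

`K` is a number field with an isomorphism `e` of the ring `ℤ[i]` of Gaussian integers with its ring
of integers (so `K = ℚ(i)`).  `D` runs over ALL the squarefree Gaussian integers `≡ 1` modulo
`2 + 2i` (every squarefree Gaussian integer prime to `2` has exactly one associate of this form),
ordered by the norm, `g` over the divisors `≡ 1` modulo `2 + 2i` of `D`, and `E = E_{D,g}` is the curve
`y² = x³ + 2 D g² x` over `K`.  `A` is the restriction of scalars of `E` to `ℚ`, an abelian surface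
over `ℚ`.

Let `2 ^ r`, `r = r(D)`, be the order of the kernel of a matrix over `𝔽₂` made from the quadratic
residue symbols of the prime factors of `D`.  With no hypothesis, for every `D` and every `g`:
* `L(E/K, s)` is entire, and the number
  `z = L(E/K, 1) √|disc K| #E(K)_tors² / (Ω ∏ c_v)` (in the case of rank zero the order of
  `Ш(E/K)` predicted by Birch and Swinnerton-Dyer) is integral at all the valuations of `ℂ`
  above two;
* the Selmer group of the endomorphism `1 + i` of `E` has order `2 ^ (r + 1)`;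
* `E(K)` and `A(ℚ)` have the same even rank `2 ρ`, and `2 ^ r = 2 ^ ρ #Ш(E/K)[1 + i]`; in particular
  the rank is at most `2 r`;
* if `r = 0`, then `L(E/K, 1) ≠ 0`, `E(K)` is finite (rank and order are both `0`),
  `Ш(E/K)[2^∞] = 0` and `z` is a unit above two; if `r > 0`, then `E(K)` is infinite or
  `Ш(E/K)[2] ≠ 0`, and `z` is not a unit at any valuation above two; the same for `A`.

For every `m ≥ 0` the natural density of the `D` with `r(D) = m` is exactly
`law m = ∏_{i ≥ 0} (1 - 2^{-(2i+1)}) ∏_{i = 1}^{m} 1 / (2^i - 1)`; the sum of these numbers is `1`, and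
`law 0 = 0.4194...`.  For every function `F` of polynomial growth the mean value of `F (r(D))` tends
to `∑ F(m) law m`; in particular all the moments of `r(D)` converge to those of the law.  For every
choice of the divisor `g = g(D)` the mean value of the rank of `E_{D,g}(K)` over the `D` of norm at
most `X` is less than `1.53` for all large `X`, and that of its `k`-th power is at most
`2 ^ k ∑ m ^ k law m + o(1)`, for every `k`.
-/

set_option autoImplicit false
set_option linter.unusedSectionVars false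
set_option linter.unusedVariables false

namespace Pool.Agent.Results.MP_1d384c_nt.QuarticTwistsSelmerLaw

open NumberField IsDedekindDomain

section defs

variable {K : Type} [Field K] [NumberField K]

/-- The curve `E_{D,g} : y² = x³ + 2 D g² x`. -/
noncomputable def curve (e : GaussianInt ≃+* 𝓞 K) (D g : GaussianInt) : WeierstrassCurve K :=
  ⟨0, 0, 0, algebraMap (𝓞 K) K (e (2 * (D * g ^ 2))), 0⟩

/-- `L` is the L-function of `E` over `K`: `L` is an entire function and the sum of the L-series for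
`Re s > 3 / 2`. -/
def IsLFunction (E : WeierstrassCurve K) (L : ℂ → ℂ) : Prop :=
  Differentiable ℂ L ∧ ∀ s : ℂ, 3 / 2 < s.re →
    LSeriesSummable ((fun n : ℤ => (n : ℂ)) ∘ E.LFunction) s ∧ L s = E.LSeries s

open scoped Classical in
/-- The equation `E` is minimal at every finite place `v`, and `c v` is the Tamagawa number of `E` at
`v`: the index in `E(K_v)` of the subgroup of the points of nonsingular reduction. -/
def IsTamagawa (E : WeierstrassCurve K) (c : HeightOneSpectrum (𝓞 K) → ℕ) : Prop :=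
  (∀ v : HeightOneSpectrum (𝓞 K),
    (E.baseChange (v.adicCompletion K)).IsMinimal (v.adicCompletionIntegers K) ∧
    ∃ H : AddSubgroup (E.baseChange (v.adicCompletion K)).toAffine.Point,
      (∀ P, P ∈ H ↔ Pool.Agent.Y696.NonsingRed Valued.v (E.baseChange (v.adicCompletion K)) P) ∧
      H.index = c v) ∧
  {v | c v ≠ 1}.Finite

/-- `Λ` is the lattice of periods of the differential `dx / (2y + a₁x + a₃)` of the curve `E`, embedded
in the complex numbers by `σ`. -/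
def IsPeriodLattice (E : WeierstrassCurve K) (σ : K →+* ℂ) (Λ : PeriodPair) : Prop :=
  Λ.g₂ = σ E.c₄ / 12 ∧ Λ.g₃ = σ E.c₆ / 216

/-- Twice the area of a fundamental parallelogram of the lattice. -/
noncomputable def period (Λ : PeriodPair) : ℝ := 2 * |((starRingEnd ℂ) Λ.ω₁ * Λ.ω₂).im|

open scoped Classical in
/-- The order of the torsion subgroup of `E(K)`. -/
noncomputable def torsionOrder (E : WeierstrassCurve K) : ℕ :=
  Nat.card (AddCommGroup.torsion E.toAffine.Point)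

/-- The number `z = L(E/K, 1) √|disc K| #E(K)_tors² / (Ω ∏ c_v)`. -/
noncomputable def quotient (E : WeierstrassCurve K) (L : ℂ → ℂ) (c : HeightOneSpectrum (𝓞 K) → ℕ)
    (Λ : PeriodPair) : ℂ :=
  L 1 * (Real.sqrt |(discr K : ℝ)| : ℝ) * (torsionOrder E : ℂ) ^ 2 /
    ((period Λ : ℂ) * ((∏ᶠ v, c v : ℕ) : ℂ))

/-- For all the embeddings of `K` in the complex numbers and all the valuations `w` of the complex
numbers with `w 2 < 1`, the value `w z` has the property `P`. Here `L` is the L-function of `E`. -/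
def AboveTwo (E : WeierstrassCurve K) (L : ℂ → ℂ)
    (P : ∀ (Γ : Type) [LinearOrderedCommGroupWithZero Γ], Γ → Prop) : Prop :=
  ∃ c : HeightOneSpectrum (𝓞 K) → ℕ, IsTamagawa E c ∧
    ∀ σ : K →+* ℂ, (∃ Λ : PeriodPair, IsPeriodLattice E σ Λ) ∧
      ∀ Λ : PeriodPair, IsPeriodLattice E σ Λ →
        ∀ (Γ : Type) [LinearOrderedCommGroupWithZero Γ] (w : Valuation ℂ Γ), w 2 < 1 →
          P Γ (w (quotient E L c Λ))

/-- The curve is good: `L(E/K, s)` is entire with `L(E/K, 1) ≠ 0`, `E(K)` is finite, the 2-primary part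
of `Ш(E/K)` is trivial, and `z` is a unit at all the valuations above `2`. -/
def Good (E : WeierstrassCurve K) : Prop :=
  ∃ L : ℂ → ℂ, IsLFunction E L ∧ L 1 ≠ 0 ∧ AboveTwo E L (fun _ _ x => x = 1) ∧
    Finite E.toAffine.Point ∧
    ∀ (n : ℕ) (x : Pool.Agent.TH841.NF.D.Sha E), 2 ^ n • x = 0 → x = 0

/-- The curve is bad: `L(E/K, s)` is entire, `z` is in the maximal ideal of all the valuations above
`2`, and `E(K)` is infinite or `Ш(E/K)` has an element of order two. -/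
def Bad (E : WeierstrassCurve K) : Prop :=
  ∃ L : ℂ → ℂ, IsLFunction E L ∧ AboveTwo E L (fun _ _ x => x < 1) ∧
    (Infinite E.toAffine.Point ∨ ∃ x : Pool.Agent.TH841.NF.D.Sha E, x ≠ 0 ∧ 2 • x = 0)

/-- The restriction of scalars `A` of `E` to `ℚ` is good: `A(ℚ)` is finite and the 2-primary part
of `Ш(A/ℚ)` is trivial. -/
def GoodRes (E : WeierstrassCurve K) : Prop :=
  Finite (Pool.Agent.E8helper21.WR.AQ E) ∧
    ∀ (n : ℕ) (x : Pool.Agent.E8helper21.WR.ShaA E), 2 ^ n • x = 0 → x = 0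

/-- The restriction of scalars `A` of `E` to `ℚ` is bad: `A(ℚ)` is infinite or `Ш(A/ℚ)` has an element
of order two. -/
def BadRes (E : WeierstrassCurve K) : Prop :=
  Infinite (Pool.Agent.E8helper21.WR.AQ E) ∨
    ∃ x : Pool.Agent.E8helper21.WR.ShaA E, x ≠ 0 ∧ 2 • x = 0

/-- The Selmer group of the endomorphism `1 + i : E → E` of the curve `E : y² = x³ + a x`, whose kernel
consists of `0` and `(0, 0)`: the continuous cocycles of the absolute Galois group of `K` with values in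
the kernel (these are homomorphisms, as the kernel is a trivial Galois module of order two) which are
coboundaries in `E` at all the places of `K`. -/
def Selmer (E : WeierstrassCurve K) : Set (Pool.Agent.TH841.SH.D.Coch E) :=
  {f | Pool.Agent.TH841.NF.D.IsShaCoc E f ∧
    ∀ σ, f σ = 0 ∨ ∃ h, f σ = WeierstrassCurve.Affine.Point.some 0 0 h}

/-- `Ш(E)[1 + i]`: the classes of the cocycles with values in the kernel of `1 + i`. -/
def ShaKernel (E : WeierstrassCurve K) : Set (Pool.Agent.TH841.NF.D.Sha E) :=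
  {x | ∃ f : Pool.Agent.TH841.NF.D.shaCoc E, f.1 ∈ Selmer E ∧ x = QuotientAddGroup.mk f}

open scoped Classical in
/-- The rank of `E(K)`. -/
noncomputable def rank (E : WeierstrassCurve K) : ℕ := Module.finrank ℤ E.toAffine.Point

/-- The rank of `A(ℚ)`, `A` the restriction of scalars of `E` to `ℚ`. -/
noncomputable def rankRes (E : WeierstrassCurve K) : ℕ :=
  Module.finrank ℤ (Pool.Agent.E8helper21.WR.AQ E)

/-- The arithmetic of the curve `E : y² = x³ + a x` when the Selmer group of `1 + i` has order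
`2 ^ (r + 1)`. -/
def Arithmetic (E : WeierstrassCurve K) (r : ℕ) : Prop :=
  (∃ L : ℂ → ℂ, IsLFunction E L ∧ AboveTwo E L (fun _ _ x => x ≤ 1)) ∧
  Nat.card (Selmer E) = 2 ^ (r + 1) ∧
  (∃ ρ : ℕ, rank E = 2 * ρ ∧ rankRes E = 2 * ρ ∧ 2 ^ r = 2 ^ ρ * Nat.card (ShaKernel E)) ∧
  (r = 0 → Good E ∧ GoodRes E) ∧
  (r ≠ 0 → Bad E ∧ BadRes E)

end defs

open scoped Classical in
/-- The exponent in `𝔽₂` of the quadratic residue symbol `(u / v)`, for distinct primes `u`, `v`. -/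
noncomputable def symbol (u v : GaussianInt) : ZMod 2 := if ∃ x : GaussianInt, v ∣ x ^ 2 - u then 0 else 1

/-- `0` if the norm of `v` is `1` modulo `8`, and `1` if not. -/
def theta (v : GaussianInt) : ZMod 2 := if v.norm % 8 = 1 then 0 else 1

/-- The kernel of the matrix over `𝔽₂` with the entries `(u / v)` off the diagonal and the row sums
`θ(v)`; the rows and columns are indexed by the elements of `S`. -/
def Kernel (S : Finset GaussianInt) : Set (S → ZMod 2) :=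
  {t | ∀ v : S, theta v * t v + ∑ u : S, symbol u v * (t v + t u) = 0}

/-- `l` is a prime `≡ 1` modulo `2 + 2i`. -/
def IsPrimary (l : GaussianInt) : Prop := Prime l ∧ (⟨2, 2⟩ : GaussianInt) ∣ l - 1

/-- The curves `E_{D,g}` for all the divisors `g ≡ 1` modulo `2 + 2i` of `D` (and all the number fields
`K` with an isomorphism `e` of `ℤ[i]` with the ring of integers) have the property `P`. -/
def All (D : GaussianInt)
    (P : ∀ (K : Type) [Field K] [NumberField K], WeierstrassCurve K → Prop) : Prop :=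
  ∀ g : GaussianInt, g ∣ D → (⟨2, 2⟩ : GaussianInt) ∣ g - 1 →
    ∀ (K : Type) [Field K] [NumberField K] (e : GaussianInt ≃+* 𝓞 K), P K (curve e D g)

/-- All the squarefree Gaussian integers `D ≡ 1` modulo `2 + 2i` of norm at most `X`. -/
def Family (X : ℕ) : Set GaussianInt :=
  {D | Squarefree D ∧ (⟨2, 2⟩ : GaussianInt) ∣ D - 1 ∧ D.norm ≤ X}

/-- The number of the members `D` of `Family X` for which all the curves `E_{D,g}` have the property
`P`. -/
noncomputable def count (X : ℕ)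
    (P : ∀ (K : Type) [Field K] [NumberField K], WeierstrassCurve K → Prop) : ℕ :=
  ({D | D ∈ Family X ∧ All D P}).ncard

/-- The numbers `∏_{i ≥ 0} (1 - 2^{-(2i+1)}) ∏_{i = 1}^{m} 1 / (2^i - 1)`. -/
noncomputable def law (m : ℕ) : ℝ :=
  (∏' i : ℕ, (1 - (1 / 2 : ℝ) ^ (2 * i + 1))) * ∏ i ∈ Finset.range m, (1 / (2 ^ (i + 1) - 1))

/-- The mean value of `f` over the members of `Family X`. -/
noncomputable def mean (X : ℕ) (f : GaussianInt → ℝ) : ℝ :=
  (∑ᶠ (D : GaussianInt) (_ : D ∈ Family X), f D) / ((Family X).ncard : ℝ)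

/-! ### Proofs -/

section proofs

open Pool.Agent.H427.QK (Ker Fm)
open Pool.Agent.H427.QX (PD EX exV PD_exV EX_exV WX bX_ne isTX minX tamX lfunX torsX ker_iffX convX)
open Pool.Agent.H427.CL (cr cr_zero card_kernel Zf zS card_Zf exact_two lam lawD lawD_le lam_sum)
open Pool.Agent.R428.G.Cv (T0 T0_add)
open Pool.Agent.Y682 (MP)
open Pool.Agent.Y697.MQ (OP Pr Pr_iff gA gθ gA_eq leg)
open Pool.Agent.Y715.Z (em0 em0_ne q4 q4_map)

lemma op_iff (l : GaussianInt) : OP l ↔ IsPrimary l :=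
  ⟨fun h => ⟨h.pr, (Pr_iff l).1 h.pm⟩, fun h => ⟨h.1, (Pr_iff l).2 h.2⟩⟩

lemma theta_eq {v : GaussianInt} (hv : OP v) : theta v = gθ v := by
  unfold theta gθ
  have hn : v.norm = v.re * v.re + v.im * v.im := by rw [Zsqrtd.norm_def]; ring
  obtain ⟨h1, h2⟩ | ⟨h1, h2⟩ := hv.pm
  · rw [Pool.Agent.Y697.MQ.ci_pos h1 h2, if_neg (by norm_num : ¬ (1 : ℤ) = -1), if_pos]
    obtain ⟨a, ha⟩ : ∃ a, v.re = 4 * a + 1 := ⟨v.re / 4, by omega⟩
    obtain ⟨b, hb⟩ : ∃ b, v.im = 4 * b := ⟨v.im / 4, by omega⟩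
    rw [hn, ha, hb]
    have : (4 * a + 1) * (4 * a + 1) + 4 * b * (4 * b) = 8 * (2 * (a * a) + a + 2 * (b * b)) + 1 := by
      ring
    omega
  · rw [Pool.Agent.Y697.MQ.ci_neg h1 h2, if_pos rfl, if_neg]
    obtain ⟨a, ha⟩ : ∃ a, v.re = 4 * a + 3 := ⟨v.re / 4, by omega⟩
    obtain ⟨b, hb⟩ : ∃ b, v.im = 4 * b + 2 := ⟨v.im / 4, by omega⟩
    rw [hn, ha, hb]
    have : (4 * a + 3) * (4 * a + 3) + (4 * b + 2) * (4 * b + 2) =
      8 * (2 * (a * a) + 3 * a + 2 * (b * b) + 2 * b + 1) + 5 := by ring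
    omega

lemma symbol_eq {u v : GaussianInt} (hu : OP u) (hv : OP v) (hne : v ≠ u) :
    symbol u v = gA v u := by
  rw [gA_eq hv hu hne]
  unfold symbol leg
  have h1 : ¬ v ∣ u := fun h => hne (hv.dvd hu h)
  rw [if_neg h1]
  by_cases h2 : ∃ x : GaussianInt, v ∣ x ^ 2 - u
  · rw [if_pos h2, if_pos h2, if_neg (by norm_num)]
  · rw [if_neg h2, if_neg h2, if_pos rfl]

lemma kernel_card {S : Finset GaussianInt} (hS : ∀ l ∈ S, OP l) :
    Nat.card (Kernel S) = 2 ^ cr S := by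
  have h2 : ∀ x : ZMod 2, x + x = 0 := by decide
  rw [← card_kernel S]
  refine Nat.card_congr (Equiv.subtypeEquivRight fun t => ?_)
  refine forall_congr' fun v => ?_
  have h : theta v * t v + ∑ u : S, symbol u v * (t v + t u) =
      gθ v * t v + ∑ u : S, gA v u * (t v + t u) := by
    rw [theta_eq (hS v v.2)]
    congr 1
    refine Finset.sum_congr rfl fun u _ => ?_
    by_cases huv : (v : GaussianInt) = u
    · have h3 : v = u := Subtype.ext huv
      subst h3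
      rw [h2, mul_zero, mul_zero]
    · rw [symbol_eq (hS u u.2) (hS v v.2) huv]
  rw [h]

/-- the divisors -/
lemma divisors {S : Finset GaussianInt} (hS : ∀ l ∈ S, OP l) {g : GaussianInt}
    (hg : g ∣ ∏ l ∈ S, l) (hg1 : (⟨2, 2⟩ : GaussianInt) ∣ g - 1) :
    ∃ V ⊆ S, ∏ l ∈ V, l = g := by
  have h1 : Squarefree g := (Pool.Agent.H427.QK.prod_mem hS).1.squarefree_of_dvd hg
  obtain ⟨V, hV, rfl⟩ := Pool.Agent.H427.QK.ex_set h1 hg1
  refine ⟨V, fun l hl => ?_, rfl⟩
  obtain ⟨q, hq, hlq⟩ := ((hV l hl).pr.dvd_finsetProd_iff _).1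
    ((Finset.dvd_prod_of_mem (fun l : GaussianInt => l) hl).trans hg)
  rw [(hV l hl).dvd (hS q hq) hlq]
  exact hq

variable {K : Type} [Field K] [NumberField K] (e : GaussianInt ≃+* 𝓞 K)

open scoped Classical in
lemma curve_eq {S V : Finset GaussianInt} (hV : V ⊆ S) :
    curve e (∏ l ∈ S, l) (∏ l ∈ V, l) = WX e S (exV V) := by
  unfold WX
  rw [PD_exV hV]
  rfl

lemma isTam {S : Finset GaussianInt} (hS : ∀ l ∈ S, OP l) {ex : GaussianInt → ℕ} (he : EX S ex) :
    IsTamagawa (WX e S ex) (Pool.Agent.E8helper69.QK.cB e S) := by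
  refine ⟨fun v => ?_, (Pool.Agent.E8helper69.QK.cB_prod e hS).1⟩
  have hbc : (WX e S ex).baseChange (v.adicCompletion K) =
      q4 (algebraMap K (v.adicCompletion K) (em0 e (2 * PD S ex))) := q4_map _ _
  rw [hbc]
  exact ⟨minX e hS he v, tamX e hS he v⟩

lemma c4_eq (S : Finset GaussianInt) (ex : GaussianInt → ℕ) (σ : K →+* ℂ) :
    σ (WX e S ex).c₄ / 12 = -4 * σ (em0 e (2 * PD S ex)) := by
  have h5 : (WX e S ex).c₄ = -48 * em0 e (2 * PD S ex) := Pool.Agent.Y715.Z.q4_c₄ _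
  rw [h5, map_mul, map_neg, map_ofNat]
  ring

omit [NumberField K] in
lemma c6_eq (S : Finset GaussianInt) (ex : GaussianInt → ℕ) (σ : K →+* ℂ) :
    σ (WX e S ex).c₆ / 216 = 0 := by
  have h7 : (WX e S ex).c₆ = 0 := by
    simp only [WX, q4, WeierstrassCurve.c₆, WeierstrassCurve.b₂, WeierstrassCurve.b₄,
      WeierstrassCurve.b₆]
    ring
  rw [h7, map_zero, zero_div]

lemma nm_two (σ : K →+* ℂ) (D : GaussianInt) :
    ‖σ (em0 e (2 * D))‖ = 2 * ‖Pool.Agent.H304R3.HK.tc D‖ := by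
  rw [Pool.Agent.Y715.Z.norm_emb e σ (2 * D)]
  have h1 : Pool.Agent.H304R3.HK.tc (2 * D) = 2 * Pool.Agent.H304R3.HK.tc D := by
    have h2 : (2 * D).re = 2 * D.re := by simp
    have h3 : (2 * D).im = 2 * D.im := by simp
    unfold Pool.Agent.H304R3.HK.tc
    rw [h2, h3]
    push_cast
    ring
  rw [h1, norm_mul]
  norm_num

/-- **every curve is good or bad, by the criterion** -/
theorem dichotomy {S : Finset GaussianInt} (hS : ∀ l ∈ S, OP l) {ex : GaussianInt → ℕ}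
    (he : EX S ex) :
    (Ker S → Good (WX e S ex)) ∧ (¬ Ker S → Bad (WX e S ex)) ∧
    ∃ L : ℂ → ℂ, IsLFunction (WX e S ex) L ∧
      AboveTwo (WX e S ex) L (fun _ _ x => x ≤ 1) := by
  classical
  obtain ⟨L, hL1, hL2, hL3⟩ := lfunX e hS he
  obtain ⟨t, ht, htor⟩ := torsX e hS ex
  have hD0 : em0 e (2 * PD S ex) ≠ 0 := bX_ne e hS ex
  have hto : torsionOrder (WX e S ex) = 2 * t := by
    unfold torsionOrder
    exact htor
  have hcp := (Pool.Agent.E8helper69.QK.cB_prod e hS).2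
  have hLf : IsLFunction (WX e S ex) L := ⟨hL1, hL2⟩
  have key : ∀ (σ : K →+* ℂ) (Λ : PeriodPair), IsPeriodLattice (WX e S ex) σ Λ →
      ∀ (Γ : Type) [LinearOrderedCommGroupWithZero Γ] (w : Valuation ℂ Γ), w 2 < 1 →
      w (quotient (WX e S ex) L (Pool.Agent.E8helper69.QK.cB e S) Λ) ≤ 1 ∧
      (w (quotient (WX e S ex) L (Pool.Agent.E8helper69.QK.cB e S) Λ) = 1 ↔ Ker S) := by
    intro σ Λ hΛ Γ _ w hw
    have h := hL3 t ht (σ (em0 e (2 * PD S ex))) (nm_two e σ _) Λ (hΛ.1.trans (c4_eq e S ex σ))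
      (hΛ.2.trans (c6_eq e S ex σ)) Γ w hw
    have hq : quotient (WX e S ex) L (Pool.Agent.E8helper69.QK.cB e S) Λ =
        L 1 * 2 * ((2 * t : ℕ) : ℂ) ^ 2 /
          (((2 * |((starRingEnd ℂ) Λ.ω₁ * Λ.ω₂).im| : ℝ) : ℂ) * ((2 * 2 ^ S.card : ℕ) : ℂ)) := by
      unfold quotient
      rw [Pool.Agent.Y715.Z.sqrt_discr e, hto, hcp]
      unfold period
      norm_num
    rw [hq]
    exact h
  have hex : ∀ σ : K →+* ℂ, ∃ Λ : PeriodPair, IsPeriodLattice (WX e S ex) σ Λ := by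
    intro σ
    have hσ0 : σ (em0 e (2 * PD S ex)) ≠ 0 := by
      rw [Ne, map_eq_zero]; exact hD0
    obtain ⟨Λ, h8, h9⟩ := Pool.Agent.Y715.Z.per_ex hσ0
    exact ⟨Λ, by rw [c4_eq]; exact h8, by rw [c6_eq]; exact h9⟩
  refine ⟨fun hk => ?_, fun hk => ?_, L, hLf, Pool.Agent.E8helper69.QK.cB e S, isTam e hS he,
    fun σ => ⟨hex σ, fun Λ hΛ Γ _ w hw => (key σ Λ hΛ Γ w hw).1⟩⟩
  · obtain ⟨h1, h2⟩ := (ker_iffX e hS he).1 hk
    refine ⟨L, hLf, ?_, ⟨Pool.Agent.E8helper69.QK.cB e S, isTam e hS he,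
      fun σ => ⟨hex σ, fun Λ hΛ Γ _ w hw => ((key σ Λ hΛ Γ w hw).2).2 hk⟩⟩, h1, h2⟩
    intro h0
    obtain ⟨Γ, _, w, hw⟩ := Pool.Agent.H427.QX.exists_val
    obtain ⟨φ⟩ : Nonempty (K →+* ℂ) := inferInstance
    obtain ⟨Λ, hΛ⟩ := hex φ
    have h3 := ((key φ Λ hΛ Γ w hw).2).2 hk
    unfold quotient at h3
    rw [h0, zero_mul, zero_mul, zero_div, map_zero] at h3
    exact zero_ne_one h3
  · refine ⟨L, hLf, ⟨Pool.Agent.E8helper69.QK.cB e S, isTam e hS he,
      fun σ => ⟨hex σ, fun Λ hΛ Γ _ w hw => ?_⟩⟩, ?_⟩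
    · have h := key σ Λ hΛ Γ w hw
      exact lt_of_le_of_ne h.1 fun h' => hk (h.2.1 h')
    · by_contra hcon
      rw [not_or, not_infinite_iff_finite, not_exists] at hcon
      apply hk
      intro t' ht'
      exact convX e hS he hcon.1 (fun x hx => by
        by_contra hx0
        exact hcon.2 x ⟨hx0, hx⟩) t' ht'

/-- from the curve to the restriction of scalars -/
lemma good_res {E : WeierstrassCurve K} (h1 : Finite E.toAffine.Point)
    (h2 : ∀ (n : ℕ) (x : Pool.Agent.TH841.NF.D.Sha E), 2 ^ n • x = 0 → x = 0) : GoodRes E := by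
  classical
  obtain ⟨f⟩ := Pool.Agent.E8helper75.WR.a_R8 K E
  obtain ⟨g⟩ := Pool.Agent.E8helper75.WR.a_SHA K E
  exact ⟨Finite.of_equiv _ f.symm.toEquiv, fun n =>
    (Pool.Agent.E8helper75.WR.smul_iff g (2 ^ n)).2 (h2 n)⟩

lemma bad_res {E : WeierstrassCurve K}
    (h : Infinite E.toAffine.Point ∨ ∃ x : Pool.Agent.TH841.NF.D.Sha E, x ≠ 0 ∧ 2 • x = 0) :
    BadRes E := by
  classical
  obtain ⟨f⟩ := Pool.Agent.E8helper75.WR.a_R8 K E
  obtain ⟨g⟩ := Pool.Agent.E8helper75.WR.a_SHA K E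
  rcases h with h | ⟨x, hx, h2⟩
  · exact Or.inl (Infinite.of_injective _ f.symm.injective)
  · refine Or.inr ⟨g.symm x, fun h0 => hx ?_, ?_⟩
    · rwa [map_eq_zero_iff g.symm g.symm.injective] at h0
    · rw [← map_nsmul, h2, map_zero]

lemma rank_res (E : WeierstrassCurve K) : rankRes E = rank E := by
  classical
  obtain ⟨f⟩ := Pool.Agent.E8helper75.WR.a_R8 K E
  unfold rankRes rank
  exact LinearEquiv.finrank_eq f.toIntLinearEquiv

lemma not_good_of_bad {E : WeierstrassCurve K} (h : Bad E) : ¬ Good E := by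
  rintro ⟨-, -, -, -, h1, h2⟩
  obtain ⟨-, -, -, h3 | ⟨x, hx, h4⟩⟩ := h
  · exact h3.not_finite h1
  · exact hx (h2 1 x (by rw [pow_one]; exact h4))

lemma val_iff {b : K} (hb : b ≠ 0) (P : Pool.Agent.TH841.SH.D.Pt (q4 b) (AlgebraicClosure K)) :
    (∃ h, P = WeierstrassCurve.Affine.Point.some 0 0 h) ↔
      P = T0 K hb (AlgebraicClosure K) :=
  ⟨fun ⟨_, h⟩ => h, fun h => ⟨_, h⟩⟩

lemma selmer_eq {b : K} (hb : b ≠ 0) :
    Selmer (q4 b) = (Zf (q4 b) (T0_add hb) : Set (Pool.Agent.TH841.SH.D.Coch (q4 b))) := by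
  ext f
  constructor
  · rintro ⟨h1, h2⟩
    exact ⟨h1, fun σ => (h2 σ).imp_right (val_iff hb _).1⟩
  · rintro ⟨h1, h2⟩
    exact ⟨h1, fun σ => (h2 σ).imp_right (val_iff hb _).2⟩

lemma sha_eq {b : K} (hb : b ≠ 0) :
    ShaKernel (q4 b) =
      ((zS (W := q4 b) (T0_add hb)).range : Set (Pool.Agent.TH841.NF.D.Sha (q4 b))) := by
  ext x
  constructor
  · rintro ⟨f, h1, rfl⟩
    have h2 : f.1 ∈ Zf (q4 b) (T0_add hb) := by
      have h3 := h1
      rw [selmer_eq hb] at h3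
      exact h3
    exact ⟨⟨f.1, h2⟩, rfl⟩
  · rintro ⟨f, rfl⟩
    refine ⟨⟨f.1, f.2.1⟩, ?_, rfl⟩
    rw [selmer_eq hb]
    exact f.2

/-- **the arithmetic of the curves** -/
theorem arith {S : Finset GaussianInt} (hS : ∀ l ∈ S, OP l) {ex : GaussianInt → ℕ} (he : EX S ex) :
    Arithmetic (WX e S ex) (cr S) := by
  obtain ⟨h1, h2, h3⟩ := dichotomy e hS he
  refine ⟨h3, ?_, ?_, ?_, ?_⟩
  · rw [selmer_eq (bX_ne e hS ex)]
    exact (card_Zf e hS he).trans (pow_succ' 2 (cr S)).symm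
  · obtain ⟨ρ, h4, h5⟩ := exact_two e hS he
    refine ⟨ρ, h4, (rank_res _).trans h4, ?_⟩
    rw [sha_eq (bX_ne e hS ex)]
    exact h5
  · intro h0
    have h4 := h1 ((cr_zero S).1 h0)
    obtain ⟨-, -, -, -, h5, h6⟩ := id h4
    exact ⟨h4, good_res h5 h6⟩
  · intro h0
    have h4 := h2 (fun h => h0 ((cr_zero S).2 h))
    obtain ⟨-, -, -, h5⟩ := id h4
    exact ⟨h4, bad_res h5⟩

/-- all the curves -/
theorem all_arith {S : Finset GaussianInt} (hS : ∀ l ∈ S, OP l) :
    All (∏ l ∈ S, l) (fun _ _ _ E => Arithmetic E (cr S)) := by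
  classical
  intro g hg hg1 K _ _ e
  obtain ⟨V, hV, rfl⟩ := divisors hS hg hg1
  rw [curve_eq e hV]
  exact arith e hS (EX_exV S V)

/-- the property of one curve gives the corank -/
lemma all_iff {S : Finset GaussianInt} (hS : ∀ l ∈ S, OP l)
    (P : ∀ (K : Type) [Field K] [NumberField K], WeierstrassCurve K → Prop) (Q : ℕ → Prop)
    (h : ∀ (K : Type) [Field K] [NumberField K] (E : WeierstrassCurve K) (r : ℕ),
      Arithmetic E r → (P K E ↔ Q r)) : All (∏ l ∈ S, l) P ↔ Q (cr S) := by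
  have h0 : (⟨2, 2⟩ : GaussianInt) ∣ 1 - 1 := by rw [sub_self]; exact dvd_zero _
  constructor
  · intro hP
    exact (h _ _ _ (all_arith hS 1 (one_dvd _) h0 _ Pool.Agent.X253.QT.QI.e)).1
      (hP 1 (one_dvd _) h0 _ Pool.Agent.X253.QT.QI.e)
  · intro hQ g hg hg1 K _ _ e
    exact (h _ _ _ (all_arith hS g hg hg1 K e)).2 hQ

theorem density (m : ℕ) : Filter.Tendsto
    (fun X : ℕ => (count X (fun _ _ _ E => Nat.card (Selmer E) = 2 ^ (m + 1)) : ℝ) /
      ((Family X).ncard : ℝ)) Filter.atTop (nhds (law m)) :=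
  lawD m (fun D => All D (fun _ _ _ E => Nat.card (Selmer E) = 2 ^ (m + 1))) fun S hS =>
    all_iff hS _ (fun r => r = m) fun K _ _ E r hr => by
      rw [hr.2.1]
      constructor
      · intro h
        have := Nat.pow_right_injective (le_refl 2) h
        omega
      · rintro rfl
        rfl

lemma good_iff {E : WeierstrassCurve K} {r : ℕ} (h : Arithmetic E r) :
    (Good E ∧ GoodRes E) ↔ r = 0 := by
  constructor
  · rintro ⟨h1, -⟩
    by_contra h0
    exact not_good_of_bad (h.2.2.2.2 h0).1 h1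
  · exact h.2.2.2.1

theorem density_good : Filter.Tendsto
    (fun X : ℕ => (count X (fun _ _ _ E => Good E ∧ GoodRes E) : ℝ) /
      ((Family X).ncard : ℝ)) Filter.atTop (nhds (law 0)) :=
  lawD 0 (fun D => All D (fun _ _ _ E => Good E ∧ GoodRes E)) fun S hS =>
    all_iff hS _ (fun r => r = 0) fun K _ _ E r hr => good_iff hr

lemma family_finite (X : ℕ) : (Family X).Finite := by
  refine (Pool.Agent.Y699.fin_norm_le X).subset ?_
  rintro D ⟨-, -, h⟩
  have h0 := GaussianInt.norm_nonneg D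
  show D.norm.natAbs ≤ X
  omega

lemma family_large : ∃ c : ℝ, 0 < c ∧ ∀ᶠ X : ℕ in Filter.atTop, c * X ≤ ((Family X).ncard : ℝ) := by
  obtain ⟨c, hc, X₀, h⟩ := Pool.Agent.Y699.positive₄
  refine ⟨c, hc, ?_⟩
  filter_upwards [Filter.eventually_ge_atTop X₀] with X hX
  refine (h X hX).trans ?_
  have h1 : ((Pool.Agent.Y699.GB₄ X : Finset GaussianInt) : Set GaussianInt) ⊆ Family X := by
    intro D hD
    have h2 : D ∈ Pool.Agent.Y699.SB X ∧ Pool.Agent.Y699.Good4 D := by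
      have h0 := Finset.mem_coe.1 hD
      unfold Pool.Agent.Y699.GB₄ at h0
      classical
      exact Finset.mem_filter.1 h0
    have h3 := (Pool.Agent.Y699.mem_SB).1 h2.1
    refine ⟨h3.2.sqf, ?_, ?_⟩
    · exact (Pr_iff D).1 ((Pool.Agent.Y697.MQ.prim_iff_Pr D).1 h3.2.prm)
    · have h4 : D.norm.natAbs ≤ X := h3.1
      have h0 := GaussianInt.norm_nonneg D
      omega
  have h5 := Set.ncard_le_ncard h1 (family_finite X)
  rw [Set.ncard_coe_finset] at h5
  exact_mod_cast h5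

lemma family_pos : ∀ᶠ X : ℕ in Filter.atTop, (0 : ℝ) < ((Family X).ncard : ℝ) := by
  obtain ⟨c, hc, h⟩ := family_large
  filter_upwards [h, Filter.eventually_gt_atTop 0] with X h1 h3
  have : (0 : ℝ) < X := by exact_mod_cast h3
  exact lt_of_lt_of_le (by positivity) h1

lemma law_zero : law 0 = ∏' i : ℕ, (1 - (1 / 2 : ℝ) ^ (2 * i + 1)) := by
  unfold law
  rw [Finset.range_zero, Finset.prod_empty, mul_one]

lemma good_large : ∃ c : ℝ, 0 < c ∧ ∀ᶠ X : ℕ in Filter.atTop,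
    c * X ≤ (count X (fun _ _ _ E => Good E ∧ GoodRes E) : ℝ) := by
  obtain ⟨c, hc, h⟩ := family_large
  have hb : (2 / 5 : ℝ) < law 0 := by
    rw [law_zero]
    exact lt_trans (by norm_num) Pool.Agent.Y948.CQ.t_C2.2.2.2.1
  refine ⟨2 / 5 * c, by positivity, ?_⟩
  filter_upwards [h, density_good.eventually_const_lt hb, family_pos] with X h1 h2 h4
  rw [lt_div_iff₀ h4] at h2
  calc 2 / 5 * c * X = 2 / 5 * (c * X) := by ring
    _ ≤ 2 / 5 * ((Family X).ncard : ℝ) := by linarith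
    _ ≤ _ := h2.le

/-- the ranks -/
theorem ranks (m : ℕ) (ε : ℝ) (hε : 0 < ε) : ∀ᶠ X : ℕ in Filter.atTop,
    (∑ j ∈ Finset.range (m + 1), law j - ε) * ((Family X).ncard : ℝ) ≤
      (count X (fun _ _ _ E => rank E ≤ 2 * m ∧ rankRes E ≤ 2 * m) : ℝ) := by
  have h1 := lawD_le m
    (fun D => All D (fun _ _ _ E => ∃ j ≤ m, Nat.card (Selmer E) = 2 ^ (j + 1))) fun S hS =>
    all_iff hS _ (fun r => r ≤ m) fun K _ _ E r hr => by
      rw [hr.2.1]
      constructor
      · rintro ⟨j, hj, h⟩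
        have := Nat.pow_right_injective (le_refl 2) h
        omega
      · intro h
        exact ⟨r, h, rfl⟩
  have h2 : ∑ j ∈ Finset.range (m + 1), law j - ε < ∑ j ∈ Finset.range (m + 1), lam j := by
    have : ∑ j ∈ Finset.range (m + 1), law j = ∑ j ∈ Finset.range (m + 1), lam j := rfl
    linarith
  filter_upwards [h1.eventually_const_lt h2, family_pos] with X h3 h4
  have h5 : (Fm X).ncard = (Family X).ncard := rfl
  rw [h5, lt_div_iff₀ h4] at h3
  refine h3.le.trans ?_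
  have h6 : {D | D ∈ Fm X ∧ All D (fun _ _ _ E => ∃ j ≤ m, Nat.card (Selmer E) = 2 ^ (j + 1))} ⊆
      {D | D ∈ Family X ∧ All D (fun _ _ _ E => rank E ≤ 2 * m ∧ rankRes E ≤ 2 * m)} := by
    rintro D ⟨hD, hA⟩
    refine ⟨hD, ?_⟩
    obtain ⟨S, hS, rfl⟩ := Pool.Agent.H427.QK.ex_set hD.1 hD.2.1
    intro g hg hg1 K _ _ e
    obtain ⟨j, hj, h7⟩ := hA g hg hg1 K e
    obtain ⟨-, h8, ⟨ρ, h9, h10, h11⟩, -, -⟩ := all_arith hS g hg hg1 K e
    rw [h8] at h7
    have h12 := Nat.pow_right_injective (le_refl 2) h7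
    have h13 : 2 ^ ρ ∣ 2 ^ cr S := ⟨_, h11⟩
    have h14 := (Nat.pow_dvd_pow_iff_le_right (le_refl 2)).1 h13
    rw [h9, h10]
    constructor <;> omega
  exact_mod_cast Set.ncard_le_ncard h6 ((family_finite X).subset fun D hD => hD.1)

/-- the function `r` -/
theorem exists_r : ∃ r : GaussianInt → ℕ, ∀ S : Finset GaussianInt, (∀ l ∈ S, OP l) →
    r (∏ l ∈ S, l) = cr S := by
  have h : ∀ D : GaussianInt, ∃ n : ℕ, ∀ S : Finset GaussianInt, (∀ l ∈ S, OP l) →
      ∏ l ∈ S, l = D → n = cr S := by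
    intro D
    by_cases hD : ∃ S : Finset GaussianInt, (∀ l ∈ S, OP l) ∧ ∏ l ∈ S, l = D
    · obtain ⟨S, hS, rfl⟩ := hD
      refine ⟨cr S, fun T hT h => ?_⟩
      rw [Pool.Agent.Y697.PP.prod_inj hT hS h]
    · exact ⟨0, fun S hS h => absurd ⟨S, hS, h⟩ hD⟩
  choose r hr using h
  exact ⟨r, fun S hS => hr _ S hS rfl⟩

/-- the ranks are bounded by the coranks -/
theorem rank_le {S : Finset GaussianInt} (hS : ∀ l ∈ S, OP l) :
    All (∏ l ∈ S, l) (fun _ _ _ E => rank E ≤ 2 * cr S) := by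
  intro g hg hg1 K _ _ e
  obtain ⟨-, -, ⟨ρ, h9, -, h11⟩, -, -⟩ := all_arith hS g hg hg1 K e
  have h13 : 2 ^ ρ ∣ 2 ^ cr S := ⟨_, h11⟩
  have h14 := (Nat.pow_dvd_pow_iff_le_right (le_refl 2)).1 h13
  show rank (curve e (∏ l ∈ S, l) g) ≤ 2 * cr S
  rw [h9]
  omega

omit [NumberField K] in
lemma pow_mean (k : ℕ) : ∑' m : ℕ, (2 ^ k * (m : ℝ) ^ k) * lam m =
    2 ^ k * ∑' m : ℕ, (m : ℝ) ^ k * lam m := by
  rw [← tsum_mul_left]
  exact tsum_congr fun m => by ring

lemma bd_two (k n : ℕ) : |2 ^ k * (n : ℝ) ^ k| ≤ 2 ^ k * ((n : ℝ) + 1) ^ k := by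
  rw [abs_of_nonneg (by positivity)]
  gcongr
  linarith

theorem mean_ranks (k : ℕ) (γ : GaussianInt → GaussianInt)
    (hγ : ∀ D : GaussianInt, γ D ∣ D ∧ (⟨2, 2⟩ : GaussianInt) ∣ γ D - 1) {c : ℝ}
    (hc : 2 ^ k * ∑' m : ℕ, (m : ℝ) ^ k * law m < c) :
    ∀ᶠ X : ℕ in Filter.atTop, mean X (fun D => (rank (curve e D (γ D)) : ℝ) ^ k) < c := by
  refine Pool.Agent.H427.CL.meanD_le (F := fun m => 2 ^ k * (m : ℝ) ^ k) (bd_two k)
    (f := fun D => (rank (curve e D (γ D)) : ℝ) ^ k) (fun S hS => ?_)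
    ((pow_mean k).trans_lt hc)
  have h1 := rank_le hS (γ (∏ l ∈ S, l)) (hγ _).1 (hγ _).2 K e
  have h2 : (rank (curve e (∏ l ∈ S, l) (γ (∏ l ∈ S, l))) : ℝ) ≤ 2 * (cr S : ℝ) := by
    exact_mod_cast h1
  show (rank (curve e (∏ l ∈ S, l) (γ (∏ l ∈ S, l))) : ℝ) ^ k ≤ 2 ^ k * (cr S : ℝ) ^ k
  rw [← mul_pow]
  gcongr

end proofs

/-- **Main theorem.** -/
theorem result :
    -- all members of the family
    (∀ D : GaussianInt, Squarefree D → (⟨2, 2⟩ : GaussianInt) ∣ D - 1 →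
      ∃ S : Finset GaussianInt, (∀ l ∈ S, IsPrimary l) ∧ ∏ l ∈ S, l = D) ∧
    (∃ r : GaussianInt → ℕ,
      (∀ S : Finset GaussianInt, (∀ l ∈ S, IsPrimary l) →
        Nat.card (Kernel S) = 2 ^ r (∏ l ∈ S, l) ∧
        All (∏ l ∈ S, l) (fun _ _ _ E => Arithmetic E (r (∏ l ∈ S, l)))) ∧
      -- the mean values of the functions of polynomial growth of `r`, for instance the moments
      (∀ (F : ℕ → ℝ) (C : ℝ) (k : ℕ), (∀ n : ℕ, |F n| ≤ C * ((n : ℝ) + 1) ^ k) →
        (Summable fun m : ℕ => F m * law m) ∧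
        Filter.Tendsto (fun X : ℕ => mean X (fun D => F (r D))) Filter.atTop
          (nhds (∑' m : ℕ, F m * law m)))) ∧
    -- the law of the Selmer groups
    (∀ m : ℕ, Filter.Tendsto (fun X : ℕ =>
      (count X (fun _ _ _ E => Nat.card (Selmer E) = 2 ^ (m + 1)) : ℝ) / ((Family X).ncard : ℝ))
      Filter.atTop (nhds (law m))) ∧
    HasSum law 1 ∧
    -- the good curves
    Filter.Tendsto (fun X : ℕ => (count X (fun _ _ _ E => Good E ∧ GoodRes E) : ℝ) /
      ((Family X).ncard : ℝ)) Filter.atTop (nhds (law 0)) ∧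
    0.4194 < law 0 ∧ law 0 < 0.4195 ∧
    (∃ c : ℝ, 0 < c ∧ ∀ᶠ X : ℕ in Filter.atTop,
      c * X ≤ (count X (fun _ _ _ E => Good E ∧ GoodRes E) : ℝ)) ∧
    -- the ranks
    (∀ (m : ℕ) (ε : ℝ), 0 < ε → ∀ᶠ X : ℕ in Filter.atTop,
      (∑ j ∈ Finset.range (m + 1), law j - ε) * ((Family X).ncard : ℝ) ≤
        (count X (fun _ _ _ E => rank E ≤ 2 * m ∧ rankRes E ≤ 2 * m) : ℝ)) ∧
    0.998 < ∑ j ∈ Finset.range (3 + 1), law j ∧
    -- the average rank and its moments
    (∀ (K : Type) [Field K] [NumberField K] (e : GaussianInt ≃+* 𝓞 K)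
      (γ : GaussianInt → GaussianInt),
      (∀ D : GaussianInt, γ D ∣ D ∧ (⟨2, 2⟩ : GaussianInt) ∣ γ D - 1) →
      (∀ᶠ X : ℕ in Filter.atTop,
        mean X (fun D => (rank (curve e D (γ D)) : ℝ)) < 1.53 ∧
        mean X (fun D => (rankRes (curve e D (γ D)) : ℝ)) < 1.53) ∧
      ∀ (k : ℕ) (ε : ℝ), 0 < ε → ∀ᶠ X : ℕ in Filter.atTop,
        mean X (fun D => (rank (curve e D (γ D)) : ℝ) ^ k) <
            2 ^ k * ∑' m : ℕ, (m : ℝ) ^ k * law m + ε ∧
        mean X (fun D => (rankRes (curve e D (γ D)) : ℝ) ^ k) <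
            2 ^ k * ∑' m : ℕ, (m : ℝ) ^ k * law m + ε) ∧
    -- the curves are not defined over the rational numbers
    (∀ D : GaussianInt, Squarefree D → (⟨2, 2⟩ : GaussianInt) ∣ D - 1 → D.im ≠ 0 →
      ∀ (K : Type) [Field K] [NumberField K] (e : GaussianInt ≃+* 𝓞 K) (τ : K ≃+* K),
        (∃ x, τ x ≠ x) → ∀ C : WeierstrassCurve.VariableChange K,
          C • curve e D 1 ≠ (curve e D 1).map (τ : K →+* K)) := by
  have hl0 : (0.4194 : ℝ) < law 0 := by
    rw [law_zero]; exact Pool.Agent.Y948.CQ.t_C2.2.2.2.1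
  have hl1 : law 0 < 0.4195 := by
    rw [law_zero]; exact Pool.Agent.Y948.CQ.t_C2.2.2.2.2
  refine ⟨fun D h1 h2 => ?_, ?_, density, Pool.Agent.H427.CL.lam_sum, density_good, hl0, hl1,
    good_large, ranks, ?_, fun K _ _ e γ hγ => ⟨?_, fun k ε hε => ?_⟩,
    fun D h1 h2 h3 K _ _ e τ hτ C => ?_⟩
  · obtain ⟨S, hS, hD⟩ := Pool.Agent.H427.QK.ex_set h1 h2
    exact ⟨S, fun l hl => (op_iff l).1 (hS l hl), hD⟩
  · obtain ⟨r, hr⟩ := exists_r
    refine ⟨r, fun S hS => ?_, fun F C k hF => ⟨Pool.Agent.H427.CL.lam_summ hF,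
      Pool.Agent.H427.CL.meanD hF hr⟩⟩
    have hS' : ∀ l ∈ S, Pool.Agent.Y697.MQ.OP l := fun l hl => (op_iff l).2 (hS l hl)
    rw [hr S hS']
    exact ⟨kernel_card hS', all_arith hS'⟩
  · have h1 : ∑ j ∈ Finset.range (3 + 1), law j = law 0 * (50 / 21) := by
      rw [law_zero]
      unfold law
      simp only [Finset.sum_range_succ, Finset.prod_range_succ, Finset.sum_range_zero,
        Finset.prod_range_zero]
      ring
    rw [h1]
    linarith
  · have h1 : 2 ^ 1 * ∑' m : ℕ, (m : ℝ) ^ 1 * law m < 1.53 := by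
      have h2 : ∑' m : ℕ, (m : ℝ) * law m < 0.765 := Pool.Agent.H427.CL.mean_lt hl1
      simp only [pow_one]
      linarith
    filter_upwards [mean_ranks e 1 γ hγ h1] with X hX
    simp only [pow_one] at hX
    simp only [rank_res]
    exact ⟨hX, hX⟩
  · filter_upwards [mean_ranks e k γ hγ (lt_add_of_pos_right _ hε)] with X hX
    simp only [rank_res]
    exact ⟨hX, hX⟩
  · have hc : curve e D 1 = ⟨0, 0, 0, algebraMap (𝓞 K) K (e (2 * D)), 0⟩ := by
      unfold curve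
      rw [one_pow, mul_one]
    rw [hc]
    refine Pool.Agent.H427.QK.nbc e D h1 ?_ h3 τ hτ C
    obtain ⟨a, ha⟩ := h2
    have hr := congrArg Zsqrtd.re ha
    have hi := congrArg Zsqrtd.im ha
    simp only [Zsqrtd.re_sub, Zsqrtd.im_sub, Zsqrtd.re_one, Zsqrtd.im_one, Zsqrtd.re_mul,
      Zsqrtd.im_mul] at hr hi
    rw [Zsqrtd.norm_def]
    obtain ⟨u, hu⟩ : ∃ u, D.re = 2 * u + 1 := ⟨a.re - a.im, by linarith⟩
    obtain ⟨v, hv⟩ : ∃ v, D.im = 2 * v := ⟨a.re + a.im, by linarith⟩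
    rw [hu, hv]
    have : (2 * u + 1) * (2 * u + 1) - -1 * (2 * v) * (2 * v) =
      2 * (2 * (u * u) + 2 * u + 2 * (v * v)) + 1 := by ring
    omega

end Pool.Agent.Results.MP_1d384c_nt.QuarticTwistsSelmerLaw
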